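import Pool.Agent.H59Z.NA.Final

set_option autoImplicit false

/-!
# Angles along quadrilaterals spanned by elliptic elements
-/

namespace Pool.Agent.H291Z.BT

open Pool.Agent.H59Z.NA

namespace Ang

variable {R W J : Type} [Group R] [MulAction R W] [MulAction R J] {L : ℕ} (A : AG R W J L)

include A in
lemma Lpos : (1 : ℝ) ≤ L := by exact_mod_cast A.hL

lemma ang_inv (g : R) (l : J) (p q : W) : A.ang (g⁻¹ • l) p q = A.ang l (g • p) (g • q) := by
  rw [← A.ang_smul g (g⁻¹ • l) p q, smul_inv_smul]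

lemma ang_smul' (g : R) (l : J) (p q : W) : A.ang (g • l) p q = A.ang l (g⁻¹ • p) (g⁻¹ • q) := by
  rw [← A.ang_smul g l (g⁻¹ • p) (g⁻¹ • q), smul_inv_smul, smul_inv_smul]

/-- a line which separates `x` from another line is closer to `x` -/
lemma eta_lt {l m : J} (hne : l ≠ m) {x a : W} (ha : a ∈ A.Y m)
    (h : (1200 : ℝ) * L < A.ang l x a) : A.Z.eta (A.Y l) x < A.Z.eta (A.Y m) x := by
  obtain ⟨a', ha', e⟩ := Tpos.eta_mem A.Z _ x (A.Y_ne m)
  have h1 := A.sep l m hne a' ha' a ha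
  have h2 := A.ang_tri l x a' a
  have h3 := Tpos.p1 A l x a' (by linarith)
  omega

lemma ang_le_of_eta {l m : J} (hne : l ≠ m) {x b : W} (hb : b ∈ A.Y l)
    (h : A.Z.eta (A.Y l) x ≤ A.Z.eta (A.Y m) x) : A.ang m x b ≤ 1200 * L := by
  obtain ⟨b', hb', e⟩ := Tpos.eta_mem A.Z _ x (A.Y_ne l)
  have h1 := A.sep m l hne.symm b' hb' b hb
  have h2 := A.ang_tri m x b' b
  have h3 := Tpos.p2 A m x b' (by omega)
  linarith

/-- Behrstock inequality -/
lemma beh {l m : J} (hne : l ≠ m) (x : W) {a b : W} (ha : a ∈ A.Y m) (hb : b ∈ A.Y l) :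
    A.ang l x a ≤ 1200 * L ∨ A.ang m x b ≤ 1200 * L := by
  by_cases h : (1200 : ℝ) * L < A.ang l x a
  · exact Or.inr (ang_le_of_eta A hne hb (eta_lt A hne ha h).le)
  · exact Or.inl (not_lt.1 h)

/-- two lines on the same geodesic are ordered -/
lemma order {l m : J} (hne : l ≠ m) {x y : W} {T : ℝ}
    (h1 : T < A.ang l x y) (h2 : T < A.ang m x y) {a b : W} (ha : a ∈ A.Y m) (hb : b ∈ A.Y l) :
    T - 1200 * L < A.ang l x a ∨ T - 1200 * L < A.ang m x b := by
  have t1 := A.ang_tri l x a y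
  have t2 := A.ang_tri m x b y
  have c1 := A.ang_comm l a y
  have c2 := A.ang_comm m b y
  rcases beh A hne y ha hb with h | h
  · left; linarith
  · right; linarith

/-- passing behind a line -/
lemma behind {l m : J} (hne : l ≠ m) {x z a : W} (ha : a ∈ A.Y m)
    (h1 : (1200 : ℝ) * L < A.ang l x a) (h2 : (2400 : ℝ) * L < A.ang m x z) :
    A.ang l x a - 1200 * L ≤ A.ang l x z := by
  obtain ⟨b, hb⟩ := A.Y_ne l
  have t1 := A.ang_tri l x z a
  have t2 := A.ang_tri m x b z
  have c2 := A.ang_comm m b z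
  rcases beh A hne x ha hb with h | h
  · linarith
  · rcases beh A hne z ha hb with h' | h'
    · linarith
    · linarith

/-- `x` is a good point for the cyclic group generated by `f` -/
def Gd (f : R) (x : W) : Prop := ∀ h ∈ Subgroup.zpowers f, ∀ l, A.ang l x (h • x) ≤ 700 * L

/-- `f` has finite order and fixes no line -/
def El (J : Type) [MulAction R J] (f : R) : Prop :=
  (∃ N : ℕ, 0 < N ∧ f ^ N = 1) ∧ ∀ l : J, f • l ≠ l

lemma Gd.inv {f : R} {x : W} (h : Gd A f x) : Gd A f⁻¹ x := by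
  intro s hs
  exact h s (by rwa [Subgroup.zpowers_inv] at hs)

lemma Gd.self {f : R} {x : W} (h : Gd A f x) (l : J) : A.ang l x (f • x) ≤ 700 * L :=
  h f (Subgroup.mem_zpowers f) l

lemma Gd.self' {f : R} {x : W} (h : Gd A f x) (l : J) : A.ang l x (f⁻¹ • x) ≤ 700 * L :=
  h.inv.self A l

omit [MulAction R W] in
lemma El.inv {f : R} (h : El J f) : El J f⁻¹ := by
  obtain ⟨⟨N, h1, h2⟩, h3⟩ := h
  refine ⟨⟨N, h1, by rw [inv_pow, h2, inv_one]⟩, fun l hl => h3 l ?_⟩
  conv_lhs => rw [← hl]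
  rw [smul_inv_smul]

lemma lemA {f : R} (hf : El J f) {x : W} (hx : Gd A f x) (y : W) (l : J)
    (h1 : (3800 : ℝ) * L < A.ang l x y) (h2 : (3800 : ℝ) * L < A.ang l x (f • y)) : False := by
  have hL := Lpos A
  obtain ⟨⟨N, hN, hfN⟩, hfix⟩ := hf
  have hne : l ≠ f • l := (hfix l).symm
  have h3 : (3100 : ℝ) * L < A.ang (f • l) x (f • y) := by
    have e := A.ang_smul f l x y
    have t := A.ang_tri (f • l) (f • x) x (f • y)
    have s := hx.self A (f • l)
    have c := A.ang_comm (f • l) x (f • x)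
    linarith
  obtain ⟨a, ha⟩ := A.Y_ne (f • l)
  obtain ⟨b, hb⟩ := A.Y_ne l
  have hmem : ∀ j : ℕ, f ^ j ∈ Subgroup.zpowers f := fun j =>
    Subgroup.pow_mem _ (Subgroup.mem_zpowers f) j
  have hshift : ∀ j : ℕ, A.Z.eta (A.Y (f • l)) (f ^ (j + 1) • x) = A.Z.eta (A.Y l) (f ^ j • x) := by
    intro j
    rw [pow_succ', mul_smul, Tpos.p3]
  rcases order A hne (T := 3100 * L) (by linarith) h3 ha hb with h | h
  · have key : ∀ j : ℕ, A.Z.eta (A.Y l) (f ^ j • x) + j ≤ A.Z.eta (A.Y l) x := by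
      intro j
      induction j with
      | zero => simp
      | succ j ih =>
        have t := A.ang_tri l x (f ^ (j + 1) • x) a
        have s := hx _ (hmem (j + 1)) l
        have := eta_lt A hne (x := f ^ (j + 1) • x) ha (by linarith)
        rw [hshift] at this
        omega
    have := key N
    rw [hfN, one_smul] at this
    omega
  · have key : ∀ j : ℕ, A.Z.eta (A.Y l) x + j ≤ A.Z.eta (A.Y l) (f ^ j • x) := by
      intro j
      induction j with
      | zero => simp
      | succ j ih =>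
        have t := A.ang_tri (f • l) x (f ^ (j + 1) • x) b
        have s := hx _ (hmem (j + 1)) (f • l)
        have := eta_lt A hne.symm (x := f ^ (j + 1) • x) hb (by linarith)
        rw [hshift] at this
        omega
    have := key N
    rw [hfN, one_smul] at this
    omega

/-- crossing lines -/
lemma cross {w u w' v : W} {l m : J} (h1 : (11400 : ℝ) * L < A.ang l w u)
    (h2 : A.ang l u w' ≤ 4500 * L) (h4 : A.ang l v w ≤ 4500 * L)
    (k2 : (4500 : ℝ) * L < A.ang m u w') (k4 : (4500 : ℝ) * L < A.ang m v w) : False := by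
  have hL := Lpos A
  have hne : l ≠ m := by
    rintro rfl
    linarith
  obtain ⟨a, ha⟩ := A.Y_ne m
  obtain ⟨b, hb⟩ := A.Y_ne l
  have t1 := A.ang_tri l w a u
  have c1 := A.ang_comm l a u
  have t2 := A.ang_tri l u w' a
  have t3 := A.ang_tri l w v a
  have c3 := A.ang_comm l w v
  have t4 := A.ang_tri m u b w'
  have c4 := A.ang_comm m b w'
  have t5 := A.ang_tri m v b w
  have c5 := A.ang_comm m b w
  rcases beh A hne u ha hb with b1 | b1 <;> rcases beh A hne w' ha hb with b2 | b2 <;>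
    rcases beh A hne v ha hb with b3 | b3 <;> rcases beh A hne w ha hb with b4 | b4 <;> linarith

section triple

variable {c c' : R} {u v w : W}

lemma lemB (hg : El J (c * c')) (hu : Gd A c u) (hv : Gd A c' v) (hw : Gd A (c * c') w)
    {l m : J} (h1 : (7600 : ℝ) * L < A.ang l w u) (h4 : (7600 : ℝ) * L < A.ang l v w)
    (k2 : (7600 : ℝ) * L < A.ang m u (c⁻¹ • w)) (k3 : (7600 : ℝ) * L < A.ang m (c⁻¹ • w) v) :
    False := by
  have hL := Lpos A
  set g := c * c' with hgd
  have e1 : c'⁻¹ • c⁻¹ • w = g⁻¹ • w := by rw [hgd, mul_inv_rev, mul_smul]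
  have e2 : g⁻¹ • c • u = c'⁻¹ • u := by rw [hgd, mul_inv_rev, mul_smul, inv_smul_smul]
  have e3 : g⁻¹ • g • c'⁻¹ • m = c'⁻¹ • m := inv_smul_smul _ _
  have s1 : A.ang (c'⁻¹ • m) (g⁻¹ • w) (c'⁻¹ • v) = A.ang m (c⁻¹ • w) v := by
    rw [← e1, A.ang_smul]
  have s2 : A.ang (c'⁻¹ • m) (c'⁻¹ • u) (g⁻¹ • w) = A.ang m u (c⁻¹ • w) := by
    rw [← e1, A.ang_smul]
  have s3 : A.ang (c'⁻¹ • m) (g⁻¹ • u) (c'⁻¹ • u) ≤ 700 * L := by
    rw [← e2, ← e3, A.ang_smul]
    exact hu.self A _
  set n := c'⁻¹ • m with hn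
  have s4 := hw.self' A n
  have s5 := hv.self' A n
  have a1 : (6200 : ℝ) * L < A.ang n w v := by
    have t1 := A.ang_tri n (g⁻¹ • w) w (c'⁻¹ • v)
    have t2 := A.ang_tri n w v (c'⁻¹ • v)
    have c1 := A.ang_comm n w (g⁻¹ • w)
    linarith
  have a2 : (6200 : ℝ) * L < A.ang n w (g⁻¹ • u) := by
    have t1 := A.ang_tri n (c'⁻¹ • u) (g⁻¹ • u) (g⁻¹ • w)
    have t2 := A.ang_tri n (g⁻¹ • u) w (g⁻¹ • w)
    have c1 := A.ang_comm n (c'⁻¹ • u) (g⁻¹ • u)
    have c2 := A.ang_comm n w (g⁻¹ • u)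
    linarith
  have fin : ∀ k : J, (3800 : ℝ) * L < A.ang k w (g⁻¹ • u) → (3800 : ℝ) * L < A.ang k w u →
      False := fun k p q => lemA A hg hw (g⁻¹ • u) k p (by rwa [smul_inv_smul])
  by_cases hne : l = n
  · exact fin l (by rw [hne]; linarith) (by linarith)
  obtain ⟨a, ha⟩ := A.Y_ne n
  obtain ⟨b, hb⟩ := A.Y_ne l
  have c4 := A.ang_comm l v w
  rcases order A hne (x := w) (y := v) (T := 6200 * L) (by linarith) a1 ha hb
    with h | h
  · have := behind A hne (z := g⁻¹ • u) ha (by linarith) (by linarith)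
    exact fin l (by linarith) (by linarith)
  · have := behind A (Ne.symm hne) (z := u) hb (by linarith) (by linarith)
    exact fin n (by linarith) (by linarith)

lemma triple1 (hc : El J c) (hc' : El J c') (hg : El J (c * c')) (hu : Gd A c u) (hv : Gd A c' v)
    (hw : Gd A (c * c') w) (l : J) : A.ang l w u ≤ 60000 * L := by
  have hL := Lpos A
  set w' := c⁻¹ • w with hw'
  have e1 : c'⁻¹ • w' = (c * c')⁻¹ • w := by rw [hw', mul_inv_rev, mul_smul]
  have A12 : ∀ k, A.ang k w u ≤ 4500 * L ∨ A.ang k u w' ≤ 4500 * L := by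
    intro k
    by_contra hcon
    push Not at hcon
    refine lemA A hc hu w' k (by linarith [hcon.2]) ?_
    rw [hw', smul_inv_smul, A.ang_comm]
    linarith [hcon.1]
  have near : ∀ k, A.ang k w' (c' • w) ≤ 700 * L := by
    intro k
    have := A.ang_smul c⁻¹ (c • k) w ((c * c') • w)
    rw [inv_smul_smul, mul_smul, inv_smul_smul] at this
    rw [hw', this, ← mul_smul]
    exact hw.self A _
  have A34 : ∀ k, A.ang k w' v ≤ 4500 * L ∨ A.ang k v w ≤ 4500 * L := by
    intro k
    by_contra hcon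
    push Not at hcon
    refine lemA A hc' hv w k (by linarith [hcon.2]) ?_
    have t := A.ang_tri k w' (c' • w) v
    have c1 := A.ang_comm k v (c' • w)
    linarith [hcon.1, near k]
  have quad : ∀ k, A.ang k w u ≤ A.ang k u w' + A.ang k w' v + A.ang k v w ∧
      A.ang k u w' ≤ A.ang k w u + A.ang k w' v + A.ang k v w ∧
      A.ang k w' v ≤ A.ang k w u + A.ang k u w' + A.ang k v w ∧
      A.ang k v w ≤ A.ang k w u + A.ang k u w' + A.ang k w' v := by
    intro k
    have := A.ang_tri k w v u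
    have := A.ang_tri k v w' u
    have := A.ang_tri k u w w'
    have := A.ang_tri k w v w'
    have := A.ang_tri k w' u v
    have := A.ang_tri k u w v
    have := A.ang_tri k v w' w
    have := A.ang_tri k w' u w
    have := A.ang_comm k w v
    have := A.ang_comm k v w'
    have := A.ang_comm k w' u
    have := A.ang_comm k u w
    refine ⟨?_, ?_, ?_, ?_⟩ <;> linarith
  have r12 : ∀ k, A.ang k w u - 700 * L ≤ A.ang (c⁻¹ • k) u w' := by
    intro k
    have e := A.ang_smul c⁻¹ k u w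
    have t := A.ang_tri (c⁻¹ • k) (c⁻¹ • u) u w'
    have s := hu.self' A (c⁻¹ • k)
    have c1 := A.ang_comm (c⁻¹ • k) u (c⁻¹ • u)
    have c2 := A.ang_comm k u w
    linarith
  have r34 : ∀ k, A.ang k w' v - 1400 * L ≤ A.ang (c'⁻¹ • k) v w := by
    intro k
    have e := A.ang_smul c'⁻¹ k w' v
    rw [e1] at e
    have t1 := A.ang_tri (c'⁻¹ • k) ((c * c')⁻¹ • w) w (c'⁻¹ • v)
    have t2 := A.ang_tri (c'⁻¹ • k) w v (c'⁻¹ • v)
    have s1 := hw.self' A (c'⁻¹ • k)
    have s2 := hv.self' A (c'⁻¹ • k)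
    have c1 := A.ang_comm (c'⁻¹ • k) w ((c * c')⁻¹ • w)
    have c2 := A.ang_comm (c'⁻¹ • k) w v
    linarith
  have r43 : ∀ k, A.ang k v w - 1400 * L ≤ A.ang (c' • k) w' v := by
    intro k
    have e := A.ang_smul c' k v w
    have t1 := A.ang_tri (c' • k) (c' • v) v (c' • w)
    have t2 := A.ang_tri (c' • k) v w' (c' • w)
    have s1 := near (c' • k)
    have s2 := hv.self A (c' • k)
    have c1 := A.ang_comm (c' • k) v (c' • v)
    have c2 := A.ang_comm (c' • k) w' v
    linarith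
  have B : ∀ k m : J, (7600 : ℝ) * L < A.ang k w u → (7600 : ℝ) * L < A.ang k v w →
      (7600 : ℝ) * L < A.ang m u w' → (7600 : ℝ) * L < A.ang m w' v → False :=
    fun k m a b c d => lemB A hg hu hv hw a b c d
  have C : ∀ k m : J, (11400 : ℝ) * L < A.ang k w u → (4500 : ℝ) * L < A.ang k w' v →
      (4500 : ℝ) * L < A.ang m u w' → (4500 : ℝ) * L < A.ang m v w → False := by
    intro k m a b c d
    refine cross A a ?_ ?_ c d
    · rcases A12 k with h | h
      · linarith
      · exact h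
    · rcases A34 k with h | h
      · linarith
      · exact h
  by_contra hcon
  push Not at hcon
  have b2 : A.ang l u w' ≤ 4500 * L := (A12 l).resolve_left (by linarith)
  have q1 := (quad l).1
  have d2 := r12 l
  have d1 : A.ang (c⁻¹ • l) w u ≤ 4500 * L := (A12 _).resolve_right (by linarith)
  have q2 := (quad (c⁻¹ • l)).2.1
  by_cases h3 : (27000 : ℝ) * L < A.ang l w' v
  · by_cases d4 : (4500 : ℝ) * L < A.ang (c⁻¹ • l) v w
    · exact C l _ (by linarith) (by linarith) (by linarith) d4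
    have f4 := r34 l
    have f3 : A.ang (c'⁻¹ • l) w' v ≤ 4500 * L := (A34 _).resolve_right (by linarith)
    have q3 := (quad (c'⁻¹ • l)).2.2.2
    by_cases f2 : (4500 : ℝ) * L < A.ang (c'⁻¹ • l) u w'
    · exact C l _ (by linarith) (by linarith) f2 (by linarith)
    exact B (c'⁻¹ • l) (c⁻¹ • l) (by linarith) (by linarith) (by linarith) (by linarith)
  · by_cases d3 : (7600 : ℝ) * L < A.ang (c⁻¹ • l) w' v
    · exact B l (c⁻¹ • l) (by linarith) (by linarith) (by linarith) d3
    have f3 := r43 l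
    have f4 : A.ang (c' • l) v w ≤ 4500 * L := (A34 _).resolve_left (by linarith)
    have q3 := (quad (c' • l)).2.2.1
    by_cases f2 : (7600 : ℝ) * L < A.ang (c' • l) u w'
    · exact B l (c' • l) (by linarith) (by linarith) f2 (by linarith)
    exact C (c' • l) (c⁻¹ • l) (by linarith) (by linarith) (by linarith) (by linarith)

lemma triple2 (hc : El J c) (hc' : El J c') (hg : El J (c * c')) (hu : Gd A c u) (hv : Gd A c' v)
    (hw : Gd A (c * c') w) (l : J) : A.ang l w v ≤ 60000 * L := by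
  refine triple1 A hc'.inv hc.inv ?_ (hv.inv A) (hu.inv A) ?_ l
  · rw [← mul_inv_rev]; exact hg.inv
  · rw [← mul_inv_rev]; exact hw.inv A

end triple

/-- two good points of the same element see each other at small angles -/
lemma pair {f : R} (hf : El J f) {x y : W} (hx : Gd A f x) (hy : Gd A f y) (l : J) :
    A.ang l x y ≤ 4500 * L := by
  by_contra hcon
  push Not at hcon
  have hL := Lpos A
  refine lemA A hf hx y l (by linarith) ?_
  have t := A.ang_tri l x (f • y) y
  have s := hy.self A l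
  have c := A.ang_comm l y (f • y)
  linarith

end Ang

end Pool.Agent.H291Z.BT
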