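import Pool.Agent.SCZ.Grp.Quo2

set_option autoImplicit false

namespace Pool.Agent.H291Z.BT

open Pool.Agent.H59Z.NA

/-- The quotient geometry with three further properties. -/
structure Q3 {Q V I : Type} [Group Q] [MulAction Q V] [MulAction Q I] {X : GM V} {L : ℕ}
    (F : Fam Q V I X L) {R W J : Type} [Group R] [MulAction R W] [MulAction R J]
    (π : Q →* R) (A : AG R W J L) (φ : V → W) : Prop where
  quo : IsQuo F π A φ
  ang_le : ∀ l p q, X.d p q ≤ 10 ^ 7 * L → A.ang l (φ p) (φ q) ≤ X.d p q + 401 * L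
  link : ∀ i, ∃ l : J, ∀ g : R, g • l = l ↔ g ∈ Subgroup.zpowers (π (F.gen i))
  ang_bdd : ∀ B : ℝ, (∀ i, (F.mu i : ℝ) * F.tr i ≤ B) → ∀ l u w, A.ang l u w ≤ B

open Tquo in
lemma ang_bdd {Q V I : Type} [Group Q] [MulAction Q V] [MulAction Q I] {X : GM V} {L : ℕ}
    {F : Fam Q V I X L} {E : GM V} (hL : 1 ≤ L) (B : ℝ) (hB : ∀ i, (F.mu i : ℝ) * F.tr i ≤ B)
    (l : OQ F.K I) (u w : OQ F.K V) : angq F E l u w ≤ B := by
  apply angq_le
  rintro i p q - - - - -
  have h1 := cd_bdd (per F i) (F.c i p - F.c i q) (per_pos hL i)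
  have h2 := per_pos (F := F) hL i
  have h3 : per F i ≤ B := hB i
  linarith

open Tquo in
/-- The geometry of the quotient, with an upper bound for the angles of close points. -/
theorem quo3 (Q V I : Type) [Group Q] [MulAction Q V] [MulAction Q I] (X : GM V)
    (L : ℕ) (F : Fam Q V I X L) (E : GM V) (hV : Nonempty V) (hX : X.Inv Q) (hL : 1 ≤ L)
    (hE : F.IsEl E)
    (hI0 : F.Ind Q (MonoidHom.id Q) (fun i => Subgroup.zpowers (F.gen i ^ F.mu i))) :
    ∃ (W J : Type) (_ : MulAction (Q ⧸ F.K) W) (_ : MulAction (Q ⧸ F.K) J)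
      (A : AG (Q ⧸ F.K) W J L) (φ : V → W), Q3 F (QuotientGroup.mk' F.K) A φ := by
  have h := thm_hyp
  have hI := ind_of F hI0
  letI aV := actR F.K (S := V)
  letI aI := actR F.K (S := I)
  have sV : ∀ (g : Q) (u : OQ F.K V), QuotientGroup.mk' F.K g • u = g • u := fun _ _ => rfl
  have sI : ∀ (g : Q) (u : OQ F.K I), QuotientGroup.mk' F.K g • u = g • u := fun _ _ => rfl
  have su := QuotientGroup.mk'_surjective F.K
  refine ⟨OQ F.K V, OQ F.K I, aV, aI,
    { Z := ZQ hE
      Y := Yq F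
      ang := angq F E
      hL := hL
      ne := hV.map (omk F.K)
      inv := ?_
      four := (h _ (ZQ hE)).1 60 (ZQ_slim hE hL hI)
      Y_ne := Yq_ne
      Y_smul := ?_
      clique := Yq_clique hE
      ang_comm := angq_comm hL
      ang_tri := angq_tri hL
      ang_smul := ?_
      bgi := angq_bgi hE hL hI
      sep := angq_sep hE hL hI
      rot := ?_ }, omk F.K, ?_, fun l p q hd => SCZ.Grp.ang_le hX hE hL hI l p q hd,
      fun i => ⟨omk F.K i, fun g => by obtain ⟨g, rfl⟩ := su g; exact stab_iff i g⟩,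
      fun B hB l u w => ang_bdd hL B hB l u w⟩
  · intro g u w
    obtain ⟨g, rfl⟩ := su g
    obtain ⟨p, rfl⟩ := omk_surj F.K u
    obtain ⟨q, rfl⟩ := omk_surj F.K w
    exact db_smul hE g p q
  · intro g l u
    obtain ⟨g, rfl⟩ := su g
    exact Yq_smul g l u
  · intro g l u w
    obtain ⟨g, rfl⟩ := su g
    exact angq_smul hE hL g l u w
  · intro g l hl hg
    obtain ⟨g, rfl⟩ := su g
    obtain ⟨j, hj⟩ := angq_rot hE hL g l hl hg
    refine ⟨j, fun u => ?_⟩
    rw [← map_pow]
    exact hj u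
  · have hker : ∀ k : Q, QuotientGroup.mk' F.K k = 1 ↔ k ∈ F.K := fun k =>
      QuotientGroup.eq_one_iff k
    refine
      { surj := su
        φ_surj := omk_surj F.K
        φ_smul := fun _ _ => rfl
        φ_eq := ?_
        scale := ?_
        rel := fun i => (hker _).2 (rel_mem_K F i)
        stab := ?_
        fixgen := ?_
        kerstab := ?_
        lift := fun Θ p w h1 h2 => lift' hX hE hL Θ p w h1 h2
        inj := fun k p hk h1 => inj' F hI k p ((hker k).1 hk) h1 }
    · intro p q e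
      obtain ⟨k, hk, e⟩ := (omk_eq F.K).1 e
      exact ⟨k, (hker k).2 hk, e⟩
    · intro m p q h1
      exact (db_le' F E p q).trans (scale' hE m p q h1)
    · intro l
      obtain ⟨i, rfl⟩ := omk_surj F.K l
      refine ⟨i, fun g => ?_⟩
      obtain ⟨g, rfl⟩ := su g
      exact stab_iff i g
    · intro i
      exact ⟨omk F.K i, (stab_iff i (F.gen i)).2 (Subgroup.mem_zpowers _)⟩
    · intro i g hg h1
      obtain ⟨y, hy⟩ := F.Y_ne i
      exact kerstab' F hI hL i y hy g ((hker g).1 h1) (Y_fix F ((F.stab g i).2 hg) hy)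

end Pool.Agent.H291Z.BT
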