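import Pool.Agent.H291Z.BT.Ang
import Pool.Agent.H291Z.BT.Quo3

set_option autoImplicit false

/-!
# Lifting elements of finite order from the quotient
-/

namespace Pool.Agent.H291Z.BT

open Pool.Agent.H59Z.NA

/-- almost fixed point of an element of finite order -/
lemma afp {Q V : Type} [Group Q] [MulAction Q V] (X : GM V) (δ : ℕ) (hX : X.Inv Q)
    (h4 : X.Four δ) (hV : Nonempty V) {u : Q} {N : ℕ} (hN : 0 < N) (hu : u ^ N = 1) :
    ∃ p : V, ∀ h ∈ Subgroup.zpowers u, X.d p (h • p) ≤ 2 * δ + 1 := by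
  classical
  have hufin : IsOfFinOrder u := isOfFinOrder_iff_pow_eq_one.2 ⟨N, hN, hu⟩
  set H := Subgroup.zpowers u with hH
  have hHfin : (H : Set Q).Finite := finite_zpowers.2 hufin
  obtain ⟨x⟩ := hV
  obtain ⟨r, hr⟩ := (hHfin.image (fun h => X.d x (h • x))).bddAbove
  have hex : ∃ ρ : ℕ, ∃ y : V, ∀ h ∈ H, X.d y (h • x) ≤ ρ := ⟨r, x, fun h hh => hr ⟨h, hh, rfl⟩⟩
  set ρ := Nat.find hex with hρ
  obtain ⟨y, hy⟩ : ∃ y : V, ∀ h ∈ H, X.d y (h • x) ≤ ρ := Nat.find_spec hex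
  refine ⟨y, fun g hg => ?_⟩
  have hy' : ∀ h ∈ H, X.d (g • y) (h • x) ≤ ρ := by
    intro h hh
    have e : h • x = g • ((g⁻¹ * h) • x) := by rw [smul_smul, mul_inv_cancel_left]
    rw [e, hX]
    exact hy _ (H.mul_mem (H.inv_mem hg) hh)
  by_contra hc
  obtain ⟨m, hm1, hm2⟩ := X.geo y (g • y) (X.d y (g • y) / 2) (Nat.div_le_self _ _)
  have key : ∀ h ∈ H, X.d m (h • x) + 1 ≤ ρ := by
    intro h hh
    have f := h4 m (h • x) y (g • y)
    have a1 := hy h hh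
    have a2 := hy' h hh
    have c1 := X.comm m y
    have c2 := X.comm (h • x) (g • y)
    have c3 := X.comm (h • x) y
    omega
  have h0 := key 1 H.one_mem
  have : ρ - 1 < ρ := by omega
  exact Nat.find_min hex this ⟨m, fun h hh => by have := key h hh; omega⟩

section

variable {Q V I : Type} [Group Q] [MulAction Q V] [MulAction Q I] {X : GM V} {L : ℕ}
  (F : Fam Q V I X L)

/-- small differences of coordinates -/
def M (x y : V) (β : ℝ) : Prop := ∀ i, |F.c i x - F.c i y| ≤ β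

variable {F}

lemma M.smul {x y : V} {β : ℝ} (h : M F x y β) (g : Q) : M F (g • x) (g • y) β := by
  intro i
  have := F.c_smul g (g⁻¹ • i) x y
  rw [smul_inv_smul] at this
  rw [this]
  exact h _

lemma M.symm {x y : V} {β : ℝ} (h : M F x y β) : M F y x β := by
  intro i
  rw [abs_sub_comm]
  exact h i

lemma M.trans {x y z : V} {β β' : ℝ} (h : M F x y β) (h' : M F y z β') : M F x z (β + β') :=
  fun i => (abs_sub_le _ _ _).trans (add_le_add (h i) (h' i))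

lemma M.of_d {x y : V} (h : X.d x y ≤ L) : M F x y (2 * L) := by
  intro i
  have h1 := F.lip i x y
  have h2 : (X.d x y : ℝ) ≤ L := by exact_mod_cast h
  linarith

/-- `p` is almost fixed by the cyclic group generated by `u` -/
def AF (X : GM V) (u : Q) (p : V) : Prop := ∀ h ∈ Subgroup.zpowers u, X.d p (h • p) ≤ 245

omit [MulAction Q I] in
lemma AF.conj (hX : X.Inv Q) {u : Q} {p : V} (h : AF X u p) (k : Q) :
    AF X (k * u * k⁻¹) (k • p) := by
  intro s hs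
  obtain ⟨j, rfl⟩ := Subgroup.mem_zpowers_iff.1 hs
  rw [conj_zpow, mul_smul, inv_smul_smul, mul_smul, hX]
  exact h _ (Subgroup.zpow_mem_zpowers _ _)

variable {R W J : Type} [Group R] [MulAction R W] [MulAction R J] {π : Q →* R} {A : AG R W J L}
  {φ : V → W}

lemma Q3.eq_of_M (hq : Q3 F π A φ) {g h : Q} (e : π g = π h) {p : V} {β : ℝ}
    (hM : M F (g • p) (h • p) β) (hβ : β < (10 ^ 8 : ℝ) * L) : g = h := by
  have : g⁻¹ * h = 1 := by
    refine hq.quo.inj _ p (by rw [map_mul, map_inv, e, inv_mul_cancel]) fun i => ?_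
    have := hM.smul g⁻¹ i
    rw [inv_smul_smul, ← mul_smul] at this
    exact lt_of_le_of_lt this hβ
  exact inv_mul_eq_one.1 this

lemma Q3.gd (hq : Q3 F π A φ) (hL : 245 ≤ L) {u : Q} {p : V} (h : AF X u p) :
    Ang.Gd A (π u) (φ p) := by
  intro s hs l
  obtain ⟨j, rfl⟩ := Subgroup.mem_zpowers_iff.1 hs
  have h1 := h _ (Subgroup.zpow_mem_zpowers u j)
  have h2 := hq.ang_le l p (u ^ j • p) (by omega)
  rw [hq.quo.φ_smul, map_zpow] at h2
  have h3 : (X.d p (u ^ j • p) : ℝ) ≤ L := by exact_mod_cast h1.trans hL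
  have h4 : (0 : ℝ) ≤ L := Nat.cast_nonneg L
  linarith

lemma Q3.old_inj (hq : Q3 F π A φ) (hL : 245 ≤ L) {u : Q} {p : V} (h : AF X u p)
    (hu : π u = 1) : u = 1 := by
  have hL' : (245 : ℝ) ≤ L := by exact_mod_cast hL
  refine (hq.eq_of_M (g := 1) (h := u) (p := p) (β := 2 * L) (by rw [hu, map_one]) ?_
    (by linarith)).symm
  rw [one_smul]
  exact M.of_d ((h u (Subgroup.mem_zpowers u)).trans hL)

lemma Q3.el (hq : Q3 F π A φ) (hL : 245 ≤ L) {u : Q} {p : V} (h : AF X u p) {N : ℕ} (hN : 0 < N)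
    (huN : u ^ N = 1) (hu : u ≠ 1) : Ang.El J (π u) := by
  have hL' : (245 : ℝ) ≤ L := by exact_mod_cast hL
  refine ⟨⟨N, hN, by rw [← map_pow, huN, map_one]⟩, fun l hl => ?_⟩
  obtain ⟨j, hj⟩ := A.rot _ l hl (fun h0 => hu (hq.old_inj hL h h0))
  have h1 := hq.gd hL h _ (Subgroup.pow_mem _ (Subgroup.mem_zpowers (π u)) j) l
  have h2 := hj (φ p)
  linarith

lemma Q3.lift_pt (hq : Q3 F π A φ) {Θ : ℝ} (hΘ : 0 ≤ Θ) (p q : V) (a : R)
    (h : ∀ l, A.ang l (φ p) (a • φ q) ≤ Θ) :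
    ∃ a' : Q, π a' = a ∧ M F p (a' • q) (Θ + 1000 * L) ∧
      (X.d p (a' • q) : ℝ) ≤ (Θ + 1000 * L) * (A.Z.d (φ p) (a • φ q) + 1) := by
  obtain ⟨z, hz1, hz2, hz3⟩ := hq.quo.lift Θ p (a • φ q) h hΘ
  obtain ⟨a0, ha0⟩ := hq.quo.surj a
  obtain ⟨k, hk1, hk2⟩ := hq.quo.φ_eq (a0 • q) z (by rw [hq.quo.φ_smul, ha0, hz1])
  refine ⟨k * a0, by rw [map_mul, hk1, one_mul, ha0], ?_, ?_⟩
  · rw [mul_smul, ← hk2]; exact hz3
  · rw [mul_smul, ← hk2]; exact hz2

/-- conjugacy between old elements of finite order lifts -/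
lemma Q3.conj_lift (hq : Q3 F π A φ) (hL : 245 ≤ L) {u u' : Q} {p p' : V}
    (h : AF X u p) (h' : AF X u' p') {N : ℕ} (hN : 0 < N) (huN : u' ^ N = 1) (hu : u' ≠ 1)
    (a : R) (ha : a * π u * a⁻¹ = π u') : ∃ a' : Q, π a' = a ∧ a' * u * a'⁻¹ = u' := by
  have hL' : (245 : ℝ) ≤ L := by exact_mod_cast hL
  have g1 : Ang.Gd A (π u') (φ p') := hq.gd hL h'
  have g2 : Ang.Gd A (π u') (a • φ p) := by
    intro s hs l
    rw [← ha] at hs
    obtain ⟨j, rfl⟩ := Subgroup.mem_zpowers_iff.1 hs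
    rw [conj_zpow, mul_smul, inv_smul_smul, mul_smul, ← Ang.ang_inv]
    exact hq.gd hL h _ (Subgroup.zpow_mem_zpowers _ _) _
  obtain ⟨a', e1, e2, -⟩ := hq.lift_pt (Θ := 4500 * L) (by positivity) p' p a
    (Ang.pair A (hq.el hL h' hN huN hu) g1 g2)
  refine ⟨a', e1, ?_⟩
  have m1 : M F p' (u' • p') (2 * L) := M.of_d ((h' u' (Subgroup.mem_zpowers _)).trans hL)
  have m2 : M F p (u • p) (2 * L) := M.of_d ((h u (Subgroup.mem_zpowers _)).trans hL)
  have m3 := (m2.smul a').symm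
  have m4 := e2.smul (a' * u * a'⁻¹)
  have e3 : (a' * u * a'⁻¹) • a' • p = a' • u • p := by simp [mul_smul]
  rw [e3] at m4
  refine hq.eq_of_M (p := p') ?_ (((m4.trans m3).trans e2.symm).trans m1) (by linarith)
  rw [map_mul, map_mul, map_inv, e1, ha]

/-- a product of two old elements of finite order which is an old element of finite order lifts -/
lemma Q3.triple_lift (hq : Q3 F π A φ) (hX : X.Inv Q) (hL : 245 ≤ L) {g c c' : Q} {w u v : V}
    (hw : AF X g w) (hu : AF X c u) (hv : AF X c' v) {N : ℕ} (hN : 0 < N) (hg : g ^ N = 1)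
    (hc : c ^ N = 1) (hc' : c' ^ N = 1) (g1 : g ≠ 1) (c1 : c ≠ 1) (c1' : c' ≠ 1)
    (e : π g = π c * π c') :
    ∃ k k' : Q, π k = 1 ∧ π k' = 1 ∧ g = (k * c * k⁻¹) * (k' * c' * k'⁻¹) := by
  have hL' : (245 : ℝ) ≤ L := by exact_mod_cast hL
  have E1 := hq.el hL hw hN hg g1
  have E2 := hq.el hL hu hN hc c1
  have E3 := hq.el hL hv hN hc' c1'
  have G1 := hq.gd hL hw
  rw [e] at E1 G1
  obtain ⟨k, e1, e2, -⟩ := hq.lift_pt (Θ := 60000 * L) (by positivity) w u 1 (fun l => by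
    rw [one_smul]
    exact Ang.triple1 A E2 E3 E1 (hq.gd hL hu) (hq.gd hL hv) G1 l)
  obtain ⟨k', e1', e2', -⟩ := hq.lift_pt (Θ := 60000 * L) (by positivity) w v 1 (fun l => by
    rw [one_smul]
    exact Ang.triple2 A E2 E3 E1 (hq.gd hL hu) (hq.gd hL hv) G1 l)
  refine ⟨k, k', e1, e1', ?_⟩
  have m0 : M F w (g • w) (2 * L) := M.of_d ((hw g (Subgroup.mem_zpowers _)).trans hL)
  have m1 : M F (k • u) ((k * c * k⁻¹) • k • u) (2 * L) :=
    M.of_d (((hu.conj hX k) _ (Subgroup.mem_zpowers _)).trans hL)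
  have m2 : M F (k' • v) ((k' * c' * k'⁻¹) • k' • v) (2 * L) :=
    M.of_d (((hv.conj hX k') _ (Subgroup.mem_zpowers _)).trans hL)
  have n1 := (e2.trans m1).trans (e2.smul (k * c * k⁻¹)).symm
  have n2 := ((e2'.trans m2).trans (e2'.smul (k' * c' * k'⁻¹)).symm).smul (k * c * k⁻¹)
  rw [← mul_smul _ (k' * c' * k'⁻¹)] at n2
  refine hq.eq_of_M (p := w) ?_ ((m0.symm.trans n1).trans n2) (by linarith)
  simp only [map_mul, map_inv, e1, e1', e, one_mul, inv_one, mul_one]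

/-- centralisers of the new elements of finite order -/
lemma Q3.new_cent (hq : Q3 F π A φ) (i : I) {u : R} (hu : u ∈ Subgroup.zpowers (π (F.gen i)))
    (hu1 : u ≠ 1) {a : R} (ha : Commute a u) : a ∈ Subgroup.zpowers (π (F.gen i)) := by
  obtain ⟨l, hl⟩ := hq.link i
  have h1 := (hl u).2 hu
  refine (hl a).1 (Tpos.p4 A u l (a • l) hu1 h1 ?_).symm
  rw [← mul_smul, ← ha.eq, mul_smul, h1]

end

end Pool.Agent.H291Z.BT
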