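import Pool.Agent.H291Z.BT.Tower

set_option autoImplicit false

/-!
# Finiteness of the decompositions of an elliptic element into two elliptic elements
-/

namespace Pool.Agent.H291Z.BT

open Pool.Agent.H59Z.NA

lemma base_proper (α : Type) [DecidableEq α] [Finite α] : Proper (FreeGroup α) (Base.tree α) := by
  intro x r
  refine Set.Finite.of_finite_image (f := fun g => (x⁻¹ * (g * x)).toWord)
    ((List.finite_length_le (α × Bool) r).subset ?_) ?_
  · rintro _ ⟨g, hg, rfl⟩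
    exact hg
  · intro g _ h _ e
    have := FreeGroup.toWord_injective e
    simpa using this

lemma cent_finite {Q : Type} [Group Q] (hc : Cyc Q) {s : Q} {N : ℕ} (hN : 0 < N) (hs : s ^ N = 1)
    (h1 : s ≠ 1) : {a : Q | Commute a s}.Finite := by
  obtain ⟨g, hg⟩ := hc s h1
  obtain ⟨i, hi⟩ := Subgroup.mem_zpowers_iff.1 (hg s (Commute.refl s))
  have hi0 : i ≠ 0 := by
    rintro rfl
    exact h1 (by rw [← hi, zpow_zero])
  have : IsOfFinOrder g := by
    rw [isOfFinOrder_iff_zpow_eq_one]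
    refine ⟨i * N, mul_ne_zero hi0 (by exact_mod_cast hN.ne'), ?_⟩
    rw [zpow_mul, hi, zpow_natCast, hs]
  exact (finite_zpowers.2 this).subset fun a ha => hg a ha

lemma conj_finite {Q : Type} [Group Q] (hc : Cyc Q) {s : Q} {N : ℕ} (hN : 0 < N) (hs : s ^ N = 1)
    (h1 : s ≠ 1) (s' : Q) : {t : Q | t⁻¹ * s * t = s'}.Finite := by
  by_cases hne : ∃ t0 : Q, t0⁻¹ * s * t0 = s'
  · obtain ⟨t0, rfl⟩ := hne
    refine ((cent_finite hc hN hs h1).image fun a => a * t0).subset fun t ht => ?_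
    refine ⟨t * t0⁻¹, ?_, by simp⟩
    have e : t⁻¹ * s * t = t0⁻¹ * s * t0 := ht
    show t * t0⁻¹ * s = s * (t * t0⁻¹)
    calc t * t0⁻¹ * s = t * (t0⁻¹ * s * t0) * t0⁻¹ := by group
      _ = _ := by rw [← e]; group
  · exact Set.finite_empty.subset fun t ht => hne ⟨t, ht⟩

variable {α : Type} {N : ℕ} (S : Stg α N)

/-- almost fixed sets of elements of finite order are uniformly bounded -/
lemma afix_bdd (hN : 0 < N) (hp : Proper S.Q S.X) (θ : ℕ) : ∃ B : ℕ, ∀ (f : S.Q) (x y : S.V),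
    f ^ N = 1 → f ≠ 1 → S.X.d x (f • x) ≤ θ → S.X.d y (f • y) ≤ θ → S.X.d x y ≤ B := by
  have hfin : (⋃ s ∈ {s : S.Q | S.X.d S.pt (s • S.pt) ≤ θ} ∩ {s | s ^ N = 1 ∧ s ≠ 1},
      ⋃ s' ∈ {s : S.Q | S.X.d S.pt (s • S.pt) ≤ θ}, {t : S.Q | t⁻¹ * s * t = s'}).Finite :=
    ((hp S.pt θ).inter_of_left _).biUnion fun s hs =>
      (hp S.pt θ).biUnion fun s' _ => conj_finite S.good.cyc hN hs.2.1 hs.2.2 s'
  obtain ⟨B, hB⟩ := (hfin.image fun t => S.X.d S.pt (t • S.pt)).bddAbove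
  refine ⟨B, fun f x y h1 h2 h3 h4 => ?_⟩
  obtain ⟨a, rfl⟩ := S.trans x
  obtain ⟨b, rfl⟩ := S.trans y
  have key : ∀ c : S.Q, S.X.d (c • S.pt) (f • c • S.pt) = S.X.d S.pt ((c⁻¹ * f * c) • S.pt) := by
    intro c
    rw [← S.good.inv c⁻¹, inv_smul_smul, mul_smul, mul_smul]
  rw [key] at h3 h4
  have e : S.X.d (a • S.pt) (b • S.pt) = S.X.d S.pt ((a⁻¹ * b) • S.pt) := by
    rw [← S.good.inv a⁻¹, inv_smul_smul, mul_smul]
  rw [e]
  refine hB ⟨a⁻¹ * b, ?_, rfl⟩
  simp only [Set.mem_iUnion]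
  refine ⟨a⁻¹ * f * a, ⟨h3, ?_, ?_⟩, b⁻¹ * f * b, h4, ?_⟩
  · have := conj_pow (a := a⁻¹) (b := f) (i := N)
    rw [inv_inv] at this
    rw [this, h1]; group
  · intro h
    apply h2
    calc f = a * (a⁻¹ * f * a) * a⁻¹ := by group
      _ = 1 := by rw [h]; group
  · show (a⁻¹ * b)⁻¹ * (a⁻¹ * f * a) * (a⁻¹ * b) = b⁻¹ * f * b
    group

lemma prod_bdd {Q V : Type} [Group Q] [MulAction Q V] {X : GM V} (hX : X.Inv Q) (h4 : X.Four 122)
    {f : Q} {B : ℕ} (hB : ∀ x y, X.d x (f • x) ≤ 1200 → X.d y (f • y) ≤ 1200 → X.d x y ≤ B)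
    {x y y' : V} (hx : X.d x (f • x) ≤ 245) (hy : X.d (f • y') y ≤ 245) :
    X.d x y + X.d x y' ≤ X.d y y' + 2 * B + 1 := by
  have t1 := X.tri x y y'
  have t2 := X.tri x y' y
  have c1 := X.comm y y'
  obtain ⟨t, ht1, ht2⟩ : ∃ t, 2 * t + X.d y y' ≤ X.d x y + X.d x y' ∧
      X.d x y + X.d x y' ≤ 2 * t + X.d y y' + 1 := by
    have t3 := X.tri y x y'
    have c2 := X.comm x y
    exact ⟨(X.d x y + X.d x y' - X.d y y') / 2, by omega, by omega⟩
  obtain ⟨z, z1, z2⟩ := X.geo x y t (by omega)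
  obtain ⟨z', z1', z2'⟩ := X.geo x y' t (by omega)
  have zz : X.d z z' ≤ 244 := by
    have f1 := h4 z z' x y
    have f2 := h4 z' y x y'
    have := X.comm z x
    have := X.comm z' x
    have := X.comm y x
    omega
  have i1 := hX f x z'
  have i2 := hX f z' y'
  have i3 := hX f x y'
  have zf : X.d z (f • z') ≤ 900 := by
    have f1 := h4 x y z (f • z')
    have := X.tri x (f • x) (f • z')
    have := X.tri (f • z') (f • y') y
    have := X.tri (f • x) x (f • y')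
    have := X.tri x y (f • y')
    have := X.comm (f • x) x
    have := X.comm y (f • y')
    have := X.comm y (f • z')
    have := X.comm y z
    omega
  have := hB x z' (by omega) (by
    have := X.tri z' z (f • z')
    have := X.comm z' z
    omega)
  omega

theorem decomp_finite (hN : 0 < N) (hp : Proper S.Q S.X) {g : S.Q} (hg : g ^ N = 1) (g1 : g ≠ 1) :
    {c : S.Q | c ^ N = 1 ∧ c ≠ 1 ∧ (c⁻¹ * g) ^ N = 1 ∧ c⁻¹ * g ≠ 1}.Finite := by
  have hX := S.good.inv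
  have h4 := S.good.four
  obtain ⟨B, hB⟩ := afix_bdd S hN hp 1200
  obtain ⟨B', hB'⟩ := afix_bdd S hN hp (8 * B + 5000)
  obtain ⟨w, hw⟩ := afp S.X 122 hX h4 S.good.ne hN hg
  have hw1 : S.X.d w (g • w) ≤ 245 := hw g (Subgroup.mem_zpowers g)
  refine (hp w (2 * B' + 245)).subset ?_
  rintro c ⟨h1, h2, h3, h5⟩
  obtain ⟨c', rfl⟩ : ∃ c', g = c * c' := ⟨c⁻¹ * g, by group⟩
  rw [inv_mul_cancel_left] at h3 h5
  obtain ⟨u, hu⟩ := afp S.X 122 hX h4 S.good.ne hN h1
  obtain ⟨v, hv⟩ := afp S.X 122 hX h4 S.good.ne hN h3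
  have hu1 : S.X.d u (c • u) ≤ 245 := hu c (Subgroup.mem_zpowers c)
  have hv1 : S.X.d v (c' • v) ≤ 245 := hv c' (Subgroup.mem_zpowers c')
  have hv2 : S.X.d v (c'⁻¹ • v) ≤ 245 := hv _ (Subgroup.inv_mem _ (Subgroup.mem_zpowers c'))
  rw [mul_smul] at hw1
  have p1 := prod_bdd hX h4 (fun x y => hB c x y h1 h2) (y := w) (y' := c' • w) hu1
    (by rw [S.X.comm]; exact hw1)
  have p2 := prod_bdd hX h4 (fun x y => hB c'⁻¹ x y (by rw [inv_pow, h3, inv_one])
    (inv_ne_one.2 h5)) (y := w) (y' := c' • w) hv2 (by rw [inv_smul_smul, S.X.self]; omega)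
  have uv : S.X.d u v ≤ 4 * B + 2000 := by
    have f1 := h4 u v w (c' • w)
    have i1 := hX c u (c' • w)
    have i2 := hX c' v w
    have := S.X.tri u (c • u) (c • c' • w)
    have := S.X.tri (c • u) u (c • c' • w)
    have := S.X.tri u w (c • c' • w)
    have := S.X.tri u (c • c' • w) w
    have := S.X.tri v (c' • v) (c' • w)
    have := S.X.tri (c' • v) v (c' • w)
    have := S.X.comm u (c • u)
    have := S.X.comm v (c' • v)
    have := S.X.comm w (c • c' • w)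
    omega
  have gu : S.X.d u ((c * c') • u) ≤ 8 * B + 5000 := by
    rw [mul_smul]
    have i1 := hX c u (c' • u)
    have i2 := hX c' v u
    have := S.X.tri u (c • u) (c • c' • u)
    have := S.X.tri u v (c' • u)
    have := S.X.tri v (c' • v) (c' • u)
    have := S.X.comm u v
    omega
  have wu := hB' (c * c') w u hg g1 (by rw [mul_smul]; omega) gu
  show S.X.d w (c • w) ≤ _
  have i1 := hX c u w
  have := S.X.tri w u (c • w)
  have := S.X.tri u (c • u) (c • w)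
  have := S.X.comm w u
  omega

end Pool.Agent.H291Z.BT
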