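import Pool.Agent.H291Z.BT.Tower

set_option autoImplicit false

/-!
# A periodic group with a fixed-point-free automorphism of prime order which is not splitting
-/

namespace Pool.Agent.H291Z.BT

open Pool.Agent.H59Z.NA

namespace Fpf

variable (p m : ℕ)

/-- the map onto the cyclic group of order `p` -/
def φ0 : FreeGroup Bool →* Multiplicative (ZMod p) :=
  FreeGroup.lift fun _ => Multiplicative.ofAdd 1

lemma φ0_of (x : Bool) : φ0 p (FreeGroup.of x) = Multiplicative.ofAdd 1 := by simp [φ0]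

variable {p m}

lemma pow_p (x : Multiplicative (ZMod p)) : x ^ p = 1 := by
  rw [← ofAdd_toAdd x, ← ofAdd_nsmul]
  simp

lemma dvd_of_zpow (hp : p.Prime) {x : Multiplicative (ZMod p)} (hx : x ≠ 1) {j : ℤ}
    (h : x ^ j = 1) : (p : ℤ) ∣ j := by
  have := Fact.mk hp
  rw [← orderOf_eq_prime (pow_p x) hx]
  exact orderOf_dvd_iff_zpow_eq_one.2 h

lemma one_ne (hp : p.Prime) : (Multiplicative.ofAdd (1 : ZMod p)) ≠ 1 := by
  have := Fact.mk hp
  intro h
  have : (1 : ZMod p) = 0 := congrArg Multiplicative.toAdd h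
  exact one_ne_zero this

/-- the part of the invariant which holds from the start -/
def P0 (m : ℕ) (S : Stg Bool (p * m)) (ψ : S.Q →* Multiplicative (ZMod p)) : Prop :=
  (∀ w, ψ (S.b w) = φ0 p w) ∧ ∀ g : S.Q, g ^ (p * m) = 1 → ψ g = 1 → g ^ m = 1

lemma P0_step (hp : p.Prime) {S T : Stg Bool (p * m)} {ψ : S.Q →* Multiplicative (ZMod p)}
    (h : P0 m S ψ) {e : S.Q → ℕ} {π : S.Q →* T.Q} (hn : Nx S T e π)
    (he : ∀ g, (ψ g = 1 ∧ e g = m) ∨ (ψ g ≠ 1 ∧ p ∣ e g ∧ e g ∣ p * m)) :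
    ∃ ψ' : T.Q →* Multiplicative (ZMod p), P0 m T ψ' := by
  obtain ⟨φ, hs, hb, -⟩ := hn
  obtain ⟨ψ', hψ'⟩ := hs.desc ψ (fun g _ => by
    rcases he g with ⟨h1, -⟩ | ⟨-, ⟨c, hc⟩, -⟩
    · rw [h1, one_pow]
    · rw [hc, pow_mul, pow_p, one_pow])
  refine ⟨ψ', fun w => by rw [hb, hψ', h.1], fun r hr h1 => ?_⟩
  rcases hs.tors r hr with ⟨g, rfl, hg⟩ | ⟨g, hg, hr2⟩
  · rw [← map_pow, h.2 g hg (by rw [← hψ', h1]), map_one]
  · obtain ⟨j, rfl⟩ := Subgroup.mem_zpowers_iff.1 hr2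
    rw [← zpow_natCast, ← zpow_mul, hs.new_ord g hg]
    rcases he g with ⟨-, h2⟩ | ⟨h2, -, h3⟩
    · rw [h2]; exact Dvd.intro_left _ rfl
    · rw [map_zpow, hψ'] at h1
      obtain ⟨c, rfl⟩ := dvd_of_zpow hp h2 h1
      have : ((e g : ℕ) : ℤ) ∣ ((p * m : ℕ) : ℤ) := by exact_mod_cast h3
      refine this.trans ⟨c, by push_cast; ring⟩

/-- the invariant -/
def P (p m : ℕ) (S : Stg Bool (p * m)) : Prop :=
  (∃ ψ, P0 m S ψ) ∧ S.b (FreeGroup.of true) ^ p = 1 ∧
    (∀ g : S.Q, Commute g (S.b (FreeGroup.of true)) →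
      g ∈ Subgroup.zpowers (S.b (FreeGroup.of true))) ∧
    S.b (FreeGroup.of false) ^ (p * m) = 1 ∧ S.b (FreeGroup.of false) ^ p ≠ 1

lemma P_start (hp : p.Prime) (hN : Odd (p * m)) (p1 : 10 ^ 32 ≤ p) (m1 : 10 ^ 32 ≤ m) :
    ∃ S, P p m S := by
  classical
  have hN0 := hN.pos
  let a : FreeGroup Bool := FreeGroup.of true
  let C : FreeGroup Bool → Prop := fun g => IsConj a g ∨ IsConj a⁻¹ g
  let e : FreeGroup Bool → ℕ := fun g => if C g then p else if φ0 p g = 1 then m else p * m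
  have hC : ∀ g s, C (s * g * s⁻¹) ↔ C g := by
    intro g s
    have : IsConj g (s * g * s⁻¹) := isConj_iff.2 ⟨s, rfl⟩
    exact ⟨fun h => h.imp (fun h => h.trans this.symm) (fun h => h.trans this.symm),
      fun h => h.imp (fun h => h.trans this) (fun h => h.trans this)⟩
  have hCi : ∀ g, C g → C g⁻¹ := by
    intro g h
    rcases h with h | h
    · obtain ⟨s, rfl⟩ := isConj_iff.1 h
      exact Or.inr (isConj_iff.2 ⟨s, by group⟩)
    · obtain ⟨s, rfl⟩ := isConj_iff.1 h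
      exact Or.inl (isConj_iff.2 ⟨s, by group⟩)
  have hCφ : ∀ g, C g → φ0 p g ≠ 1 := by
    intro g h h1
    apply one_ne hp
    rcases h with h | h <;> obtain ⟨s, rfl⟩ := isConj_iff.1 h
    · simpa [a, φ0_of] using h1
    · simpa [a, φ0_of] using h1
  obtain ⟨T, π, hn⟩ := exists_nx hN (base Bool (p * m)) e
    (fun (g s : FreeGroup Bool) => by
      show e (s * g * s⁻¹) = e g
      simp only [e, hC, map_mul, map_inv, conj_eq_one_iff])
    (fun g => by
      show _ ≤ e g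
      simp only [e]
      split_ifs
      · exact p1
      · exact m1
      · exact m1.trans (Nat.le_mul_of_pos_left _ hp.pos))
    (fun g => by
      show e g ∣ _
      simp only [e]
      split_ifs
      · exact Dvd.intro _ rfl
      · exact Dvd.intro_left _ rfl
      · exact dvd_rfl)
    (fun (g : FreeGroup Bool) => by
      show e g⁻¹ = e g
      have : C g⁻¹ ↔ C g := ⟨fun h => by simpa using hCi _ h, hCi g⟩
      simp only [e, this, map_inv, inv_eq_one])
  have h0 : P0 m (base Bool (p * m)) (φ0 p) := by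
    refine ⟨fun _ => rfl, fun (g : FreeGroup Bool) hg _ => ?_⟩
    have : g = 1 := by
      by_contra hne
      have := Base.le_norm_pow g hne (p * m)
      rw [show (g ^ (p * m) : FreeGroup Bool) = 1 from hg, FreeGroup.norm_one] at this
      omega
    rw [this, one_pow]
  have h1 := P0_step hp h0 hn (fun g => by
    show (φ0 p g = 1 ∧ e g = m) ∨ (φ0 p g ≠ 1 ∧ p ∣ e g ∧ e g ∣ p * m)
    simp only [e]
    split_ifs with c1 c2
    · exact Or.inr ⟨hCφ g c1, dvd_rfl, Dvd.intro _ rfl⟩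
    · exact Or.inl ⟨c2, rfl⟩
    · exact Or.inr ⟨c2, Dvd.intro _ rfl, dvd_rfl⟩)
  obtain ⟨φ, hs, hb, -⟩ := hn
  have hb' : ∀ w, T.b w = π w := hb
  have pa : Prim (base Bool (p * m)).X (p * m) (FreeGroup.of true : FreeGroup Bool) :=
    prim_of hN0 true
  have pb : Prim (base Bool (p * m)).X (p * m) (FreeGroup.of false : FreeGroup Bool) :=
    prim_of hN0 false
  have ea : e (FreeGroup.of true) = p := if_pos (Or.inl (IsConj.refl _))
  have eb : e (FreeGroup.of false) = p * m := by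
    have c1 : ¬ C (FreeGroup.of false) := by
      let χ : FreeGroup Bool →* Multiplicative ℤ :=
        FreeGroup.lift fun x => Multiplicative.ofAdd (if x then 0 else 1)
      intro h
      rcases h with h | h <;> obtain ⟨s, hs⟩ := isConj_iff.1 h <;>
        have := congrArg (fun x => Multiplicative.toAdd (χ x)) hs <;> simp [χ, a] at this
    simp only [e]
    rw [if_neg c1, if_neg (by rw [φ0_of]; exact one_ne hp)]
  have oa := hs.new_ord _ pa
  have ob := hs.new_ord _ pb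
  rw [ea] at oa
  rw [eb] at ob
  refine ⟨T, h1, ?_, ?_, ?_, ?_⟩
  · rw [hb', ← zpow_natCast]
    exact (oa _).2 dvd_rfl
  · intro g hg
    rw [hb'] at hg ⊢
    refine hs.new_cent _ pa _ (Subgroup.mem_zpowers _) (fun h => ?_) g hg
    have := (oa 1).1 (by rw [zpow_one]; exact h)
    have h2 := Int.le_of_dvd one_pos this
    have := hp.one_lt
    omega
  · rw [hb', ← zpow_natCast]
    exact (ob _).2 dvd_rfl
  · rw [hb', ← zpow_natCast]
    intro h
    have h2 : p * m ∣ p := by exact_mod_cast (ob _).1 h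
    have h3 := Nat.le_of_dvd hp.pos h2
    have h4 : p * 2 ≤ p * m := Nat.mul_le_mul_left _ (le_trans (by norm_num) m1)
    have := hp.pos
    omega

lemma P_step (hp : p.Prime) (hN : Odd (p * m)) (m1 : 10 ^ 32 ≤ m) (S : Stg Bool (p * m))
    (h : P p m S) : ∃ T, P p m T ∧ ∃ e π, Nx S T e π := by
  classical
  obtain ⟨⟨ψ, h0⟩, a1, a2, b1, b2⟩ := h
  let e : S.Q → ℕ := fun g => if ψ g = 1 then m else p * m
  obtain ⟨T, π, hn⟩ := exists_nx hN S e
    (fun g s => by simp only [e, map_mul, map_inv, conj_eq_one_iff])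
    (fun g => by
      simp only [e]
      split_ifs
      · exact m1
      · exact m1.trans (Nat.le_mul_of_pos_left _ hp.pos))
    (fun g => by
      simp only [e]
      split_ifs
      · exact Dvd.intro_left _ rfl
      · exact dvd_rfl)
    (fun g => by simp only [e, map_inv, inv_eq_one])
  have h1 := P0_step hp h0 hn (fun g => by
    simp only [e]
    split_ifs with c2
    · exact Or.inl ⟨c2, rfl⟩
    · exact Or.inr ⟨c2, Dvd.intro _ rfl, dvd_rfl⟩)
  refine ⟨T, ?_, e, π, hn⟩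
  obtain ⟨φ, hs, hb, -⟩ := hn
  have aN : S.b (FreeGroup.of true) ^ (p * m) = 1 := by rw [pow_mul, a1, one_pow]
  have an : S.b (FreeGroup.of true) ≠ 1 := by
    intro h
    apply one_ne hp
    rw [← φ0_of p true, ← h0.1, h, map_one]
  refine ⟨h1, ?_, ?_, ?_, ?_⟩
  · rw [hb, ← map_pow, a1, map_one]
  · intro g hg
    rw [hb] at hg ⊢
    obtain ⟨g', rfl, h2⟩ := hs.conj_lift _ _ aN aN an g (by rw [hg.eq, mul_inv_cancel_right])
    obtain ⟨j, rfl⟩ := Subgroup.mem_zpowers_iff.1 (a2 g' (mul_inv_eq_iff_eq_mul.1 h2))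
    rw [map_zpow]
    exact Subgroup.zpow_mem_zpowers _ _
  · rw [hb, ← map_pow, b1, map_one]
  · rw [hb, ← map_pow]
    intro h
    exact b2 (hs.old_inj _ (by rw [← pow_mul, mul_comm p (p * m), pow_mul, b1, one_pow]) h)

end Fpf

open Fpf in
theorem exists_fpf : ∃ (H : Type) (_ : Group H) (p m : ℕ) (ψ : H →* Multiplicative (ZMod p))
    (a b : H), p.Prime ∧ 0 < m ∧ Nat.Coprime p m ∧ (∀ g, ψ g = 1 → g ^ m = 1) ∧ a ^ p = 1 ∧
    ψ a ≠ 1 ∧ ψ b = ψ a ∧ b ^ p ≠ 1 ∧ ∀ g, Commute g a → g ∈ Subgroup.zpowers a := by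
  obtain ⟨p, p1, hp⟩ := Nat.exists_infinite_primes (10 ^ 32)
  have podd : Odd p := hp.odd_of_ne_two (by rintro rfl; norm_num at p1)
  have hN : Odd (p * (p + 2)) := podd.mul (podd.add_even even_two)
  have m1 : 10 ^ 32 ≤ p + 2 := by omega
  obtain ⟨S0, h0⟩ := P_start hp hN p1 m1
  obtain ⟨S, hP, hS⟩ := exists_tower (P p (p + 2)) (fun S T => ∃ e π, Nx S T e π) S0 h0
    (P_step hp hN m1)
  obtain ⟨ψ, hψ⟩ := exists_desc (QuotientGroup.mk' (limK hS)) (QuotientGroup.mk'_surjective _)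
    (φ0 p) (fun w hw => by
      obtain ⟨k, hk⟩ := (lim_one hS w).1 hw
      obtain ⟨ψ, h1, -⟩ := (hP k).1
      rw [← h1, hk, map_one])
  refine ⟨_, inferInstance, p, p + 2, ψ, QuotientGroup.mk' (limK hS) (FreeGroup.of true),
    QuotientGroup.mk' (limK hS) (FreeGroup.of false), hp, by omega, ?_, ?_, ?_, ?_, ?_, ?_, ?_⟩
  · rw [Nat.coprime_self_add_right]
    exact (Nat.coprime_primes hp Nat.prime_two).2 (by rintro rfl; norm_num at p1)
  · intro g hg
    obtain ⟨w, rfl⟩ := QuotientGroup.mk'_surjective _ g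
    obtain ⟨k, hk⟩ := lim_pow hS w
    obtain ⟨ψ', h1, h2⟩ := (hP k).1
    rw [← map_pow, lim_one]
    exact ⟨k, by rw [map_pow, h2 _ hk (by rw [h1, ← hψ, hg])]⟩
  · rw [← map_pow, lim_one]
    exact ⟨0, by rw [map_pow, (hP 0).2.1]⟩
  · rw [hψ, φ0_of]; exact one_ne hp
  · rw [hψ, hψ, φ0_of, φ0_of]
  · rw [← map_pow, Ne, lim_one]
    rintro ⟨k, hk⟩
    exact (hP k).2.2.2.2 (by rw [← map_pow, hk])
  · intro g hg
    obtain ⟨w, rfl⟩ := QuotientGroup.mk'_surjective _ g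
    have := hg.eq
    rw [← map_mul, ← map_mul, lim_eq] at this
    obtain ⟨k, hk⟩ := this
    have h1 := hk k le_rfl
    rw [map_mul, map_mul] at h1
    obtain ⟨j, hj⟩ := Subgroup.mem_zpowers_iff.1 ((hP k).2.2.1 _ h1)
    refine Subgroup.mem_zpowers_iff.2 ⟨j, ?_⟩
    rw [← map_zpow, ← inv_mul_eq_one, ← map_inv, ← map_mul, lim_one]
    exact ⟨k, by rw [map_mul, map_inv, map_zpow, hj, inv_mul_cancel]⟩

end Pool.Agent.H291Z.BT
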