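import Pool.Agent.H291Z.BT.Ell

set_option autoImplicit false

/-!
# One step of the tower with variable exponents
-/

namespace Pool.Agent.H291Z.BT

open Pool.Agent.H59Z.NA

/-- short primitive elements of infinite order -/
def Prim {Q V : Type} [Group Q] [MulAction Q V] (X : GM V) (N : ℕ) (g : Q) : Prop :=
  g ^ N ≠ 1 ∧ X.tau g ≤ 1 ∧ ∀ a, Commute a g → a ∈ Subgroup.zpowers g

/-- metrically proper actions -/
def Proper (Q : Type) {V : Type} [Group Q] [MulAction Q V] (X : GM V) : Prop :=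
  ∀ (x : V) (r : ℕ), {g : Q | X.d x (g • x) ≤ r}.Finite

/-- The properties of one step. -/
structure Step {Q V R W : Type} [Group Q] [MulAction Q V] [Group R] [MulAction R W] (N : ℕ)
    (e : Q → ℕ) (X : GM V) (Z : GM W) (π : Q →* R) (φ : V → W) : Prop where
  good : Good R W Z 122 (10 ^ 9) (1 / (3 * 10 ^ 13)) N
  surj : Function.Surjective π
  φ_surj : Function.Surjective φ
  φ_smul : ∀ (g : Q) p, φ (g • p) = π g • φ p
  len : ∀ p q : V, Z.d (φ p) (φ q) ≤ 1 ∨ Z.d (φ p) (φ q) < X.d p q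
  kill : ∀ q : Q, X.tau q ≤ 1 → π q ^ N = 1
  ker : ∀ k, π k = 1 → k ∈ Subgroup.closure {x | ∃ g, Prim X N g ∧ x = g ^ e g}
  tors : ∀ r : R, r ^ N = 1 →
    (∃ g, π g = r ∧ g ^ N = 1) ∨ ∃ g, Prim X N g ∧ r ∈ Subgroup.zpowers (π g)
  new_ord : ∀ g, Prim X N g → ∀ j : ℤ, π g ^ j = 1 ↔ (e g : ℤ) ∣ j
  new_cent : ∀ g, Prim X N g → ∀ u ∈ Subgroup.zpowers (π g), u ≠ 1 → ∀ a, Commute a u →
    a ∈ Subgroup.zpowers (π g)
  old_inj : ∀ u : Q, u ^ N = 1 → π u = 1 → u = 1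
  old_new : ∀ u g : Q, u ^ N = 1 → Prim X N g → π u ∈ Subgroup.zpowers (π g) → u = 1
  conj_lift : ∀ u u' : Q, u ^ N = 1 → u' ^ N = 1 → u' ≠ 1 → ∀ a : R, a * π u * a⁻¹ = π u' →
    ∃ a' : Q, π a' = a ∧ a' * u * a'⁻¹ = u'
  triple : ∀ g c c' : Q, g ^ N = 1 → c ^ N = 1 → c' ^ N = 1 → g ≠ 1 → c ≠ 1 → c' ≠ 1 →
    π g = π c * π c' →
    ∃ k k' : Q, π k = 1 ∧ π k' = 1 ∧ g = (k * c * k⁻¹) * (k' * c' * k'⁻¹)
  proper : Proper Q X → Proper R Z

lemma lines_e (N : ℕ) (Q V : Type) [Group Q] [MulAction Q V] (X : GM V)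
    (hg : Good Q V X 122 (10 ^ 9) (1 / (3 * 10 ^ 13)) N) (e : Q → ℕ)
    (e1 : ∀ g s, e (s * g * s⁻¹) = e g) (e2 : ∀ g, 10 ^ 32 ≤ e g) :
    ∃ (I : Type) (_ : MulAction Q I) (F : Fam Q V I X (2 * 10 ^ 9)),
      (∀ i, Prim X N (F.gen i) ∧ F.mu i = e (F.gen i)) ∧
      (∀ g, Prim X N g → ∃ i, g = F.gen i ∨ g = (F.gen i)⁻¹) ∧
      ∀ g : Q, g ^ N = 1 ∨ (∃ i, g ∈ Subgroup.zpowers (F.gen i)) ∨ 1 < X.tau g := by
  obtain ⟨-, t2, -, t4, t5, -, -⟩ := tau_holds Q V X hg.inv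
  obtain ⟨I, _, F, hF1, hF2⟩ := lines_holds Q V X 122 (10 ^ 9) (2 * 10 ^ 9) 1
    (Prim X N) e hg.inv hg.four hg.cyc hg.mal hg.acyl (by norm_num) (by norm_num)
    (by
      rintro g s ⟨p1, p2, p3⟩
      refine ⟨⟨?_, by rw [t5]; exact p2, ?_⟩, e1 g s⟩
      · intro h0
        rw [conj_pow] at h0
        apply p1
        have : g ^ N = s⁻¹ * (s * g ^ N * s⁻¹) * s := by group
        rw [this, h0]; group
      · intro a ha
        have hc : Commute (s⁻¹ * a * s) g := by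
          have e := ha.eq
          change s⁻¹ * a * s * g = g * (s⁻¹ * a * s)
          calc s⁻¹ * a * s * g = s⁻¹ * (a * (s * g * s⁻¹)) * s := by group
            _ = s⁻¹ * ((s * g * s⁻¹) * a) * s := by rw [e]
            _ = g * (s⁻¹ * a * s) := by group
        obtain ⟨k, hk⟩ := Subgroup.mem_zpowers_iff.1 (p3 _ hc)
        refine Subgroup.mem_zpowers_iff.2 ⟨k, ?_⟩
        rw [conj_zpow, hk]; group)
    (by
      rintro g ⟨p1, p2, p3⟩
      have h0 := (hg.dich g).resolve_left p1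
      have hnR : (10 ^ 32 : ℝ) ≤ e g := by exact_mod_cast e2 g
      refine ⟨lt_of_lt_of_le (by norm_num) h0, by exact_mod_cast p2, p3, ?_⟩
      have : (10 ^ 32 : ℝ) * (1 / (3 * 10 ^ 13)) ≤ e g * X.tau g :=
        mul_le_mul hnR h0 (by norm_num) (by positivity)
      push_cast
      linarith)
  refine ⟨I, inferInstance, F, hF1, hF2, fun g => ?_⟩
  by_cases p1 : g ^ N = 1
  · exact Or.inl p1
  by_cases p2 : 1 < X.tau g
  · exact Or.inr (Or.inr p2)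
  push Not at p2
  have hg1 : g ≠ 1 := by rintro rfl; exact p1 (one_pow N)
  obtain ⟨g0, hg0⟩ := hg.cyc g hg1
  obtain ⟨k, he⟩ := Subgroup.mem_zpowers_iff.1 (hg0 g (Commute.refl g))
  have he0 : k ≠ 0 := by rintro rfl; exact hg1 (by rw [← he, zpow_zero])
  have q1 : g0 ^ N ≠ 1 := by
    intro h0
    apply p1
    rw [← he, ← zpow_natCast, ← zpow_mul, mul_comm k (N : ℤ), zpow_mul, zpow_natCast, h0, one_zpow]
  have q2 : X.tau g0 ≤ 1 := by
    have h1 := t4 g0 k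
    rw [he] at h1
    have h2 : (1 : ℝ) ≤ |(k : ℝ)| := by exact_mod_cast Int.one_le_abs he0
    nlinarith [t2 g0]
  have q3 : ∀ a, Commute a g0 → a ∈ Subgroup.zpowers g0 := by
    intro a ha
    apply hg0
    rw [← he]
    exact ha.zpow_right k
  obtain ⟨i, hi⟩ := hF2 g0 ⟨q1, q2, q3⟩
  refine Or.inr (Or.inl ⟨i, ?_⟩)
  rw [← he]
  refine Subgroup.zpow_mem _ ?_ k
  rcases hi with hi | hi
  · rw [hi]; exact Subgroup.mem_zpowers _
  · rw [hi]; exact Subgroup.inv_mem _ (Subgroup.mem_zpowers _)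

theorem exists_step (N : ℕ) (hN : Odd N) (Q V : Type) [Group Q] [MulAction Q V] (X : GM V)
    (hg : Good Q V X 122 (10 ^ 9) (1 / (3 * 10 ^ 13)) N) (e : Q → ℕ)
    (e1 : ∀ g s, e (s * g * s⁻¹) = e g) (e2 : ∀ g, 10 ^ 32 ≤ e g) (e3 : ∀ g, e g ∣ N)
    (e4 : ∀ g, e g⁻¹ = e g) :
    ∃ (R W : Type) (_ : Group R) (_ : MulAction R W) (Z : GM W) (π : Q →* R) (φ : V → W),
      Step N e X Z π φ := by
  have hN0 : 0 < N := hN.pos
  obtain ⟨I, _, F, hmu, hP, htri⟩ := lines_e N Q V X hg e e1 e2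
  obtain ⟨E, hE⟩ := elec_holds Q V I X 122 (2 * 10 ^ 9) F hg.inv hg.four (by norm_num)
    (by norm_num)
  have hInd := wind_holds Q V I X _ F E hg.inv (by norm_num) hE Q (MonoidHom.id Q)
    (fun i => Subgroup.zpowers (F.gen i ^ F.mu i))
    (by
      intro g i x hx
      obtain ⟨k, rfl⟩ := Subgroup.mem_zpowers_iff.1 hx
      refine Subgroup.mem_zpowers_iff.2 ⟨k, ?_⟩
      simp only [MonoidHom.id_apply, F.gen_smul, F.mu_smul, conj_pow, conj_zpow])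
    (fun i x hx => hx) (fun i x _ hx => hx)
  obtain ⟨W, J, _, _, A, φ, hq3⟩ := quo3 Q V I X _ F E hg.ne hg.inv (by norm_num) hE hInd
  have hq := hq3.quo
  have hmuN : ∀ i, F.mu i ∣ N := fun i => by rw [(hmu i).2]; exact e3 _
  obtain ⟨hg', htor⟩ := step_holds Q V I X 122 (10 ^ 9) (2 * 10 ^ 9) N _ 1 F _ W J _ A φ hg hN
    hmuN (by norm_num) one_pos le_rfl
    (fun g => by
      rcases htri g with h' | h' | h'
      · exact Or.inl h'
      · exact Or.inr (Or.inl h')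
      · exact Or.inr (Or.inr h'.le)) hq
  set π := QuotientGroup.mk' F.K with hπ
  have hL : 245 ≤ 2 * 10 ^ 9 := by norm_num
  have af : ∀ u : Q, u ^ N = 1 → ∃ p, AF X u p := fun u hu =>
    afp X 122 hg.inv hg.four hg.ne hN0 hu
  have hzp : ∀ g, Prim X N g → ∃ i, Subgroup.zpowers (π g) = Subgroup.zpowers (π (F.gen i)) ∧
      e g = F.mu i ∧ ∀ j : ℤ, π g ^ j = 1 ↔ π (F.gen i) ^ j = 1 := by
    intro g hg
    obtain ⟨i, rfl | rfl⟩ := hP g hg
    · exact ⟨i, rfl, (hmu i).2.symm, fun _ => Iff.rfl⟩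
    · refine ⟨i, by rw [map_inv, Subgroup.zpowers_inv], by rw [e4, (hmu i).2], fun j => ?_⟩
      rw [map_inv, inv_zpow, inv_eq_one]
  refine ⟨Q ⧸ F.K, W, inferInstance, inferInstance, A.Z, π, φ, ?_, hq.surj, hq.φ_surj, hq.φ_smul,
    ?_, ?_, ?_, ?_, ?_, ?_, ?_, ?_, ?_, ?_, ?_⟩
  · convert hg' using 1
    norm_num
  · intro p q
    by_cases hd : X.d p q ≤ 2 * 10 ^ 9
    · left
      exact hq.scale 0 p q (by omega)
    · right
      have := hq.scale (X.d p q - 2) p q (by omega)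
      omega
  · intro q hq'
    rcases htri q with h' | ⟨i, h'⟩ | h'
    · rw [← map_pow, h', map_one]
    · obtain ⟨k, rfl⟩ := Subgroup.mem_zpowers_iff.1 h'
      obtain ⟨c, hc⟩ := hmuN i
      have : π (F.gen i) ^ N = 1 := by rw [hc, pow_mul, ← map_pow, hq.rel i, one_pow]
      rw [map_zpow, ← zpow_natCast, ← zpow_mul, mul_comm k (N : ℤ), zpow_mul, zpow_natCast, this,
        one_zpow]
    · linarith
  · intro k hk
    have : k ∈ F.K := (QuotientGroup.eq_one_iff k).1 hk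
    refine Subgroup.closure_mono ?_ this
    rintro _ ⟨i, rfl⟩
    exact ⟨F.gen i, (hmu i).1, by simp only [(hmu i).2]⟩
  · intro r hr
    obtain ⟨g', h1, h2 | ⟨i, h2⟩⟩ := htor r N hN0 hr
    · exact Or.inl ⟨g', h1, h2⟩
    · refine Or.inr ⟨F.gen i, (hmu i).1, ?_⟩
      obtain ⟨k, rfl⟩ := Subgroup.mem_zpowers_iff.1 h2
      rw [← h1, map_zpow]
      exact Subgroup.zpow_mem_zpowers _ _
  · intro g hg0 j
    obtain ⟨i, -, h2, h3⟩ := hzp g hg0
    rw [h3, h2]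
    constructor
    · intro h
      rw [← map_zpow] at h
      obtain ⟨l, hl⟩ := Subgroup.mem_zpowers_iff.1
        (hq.kerstab i _ (Subgroup.zpow_mem_zpowers _ j) h)
      rw [← zpow_natCast, ← zpow_mul] at hl
      have : F.gen i ^ (j - F.mu i * l) = 1 := by rw [zpow_sub, hl, mul_inv_cancel]
      exact ⟨l, by linarith [Text.gen_zpow_eq_one F i this]⟩
    · rintro ⟨l, rfl⟩
      rw [zpow_mul, zpow_natCast, ← map_pow, hq.rel i, one_zpow]
  · intro g hg0 u hu hu1 a ha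
    obtain ⟨i, h1, -, -⟩ := hzp g hg0
    rw [h1] at hu ⊢
    exact hq3.new_cent i hu hu1 ha
  · intro u hu h1
    obtain ⟨p, hp⟩ := af u hu
    exact hq3.old_inj hL hp h1
  · intro u g hu hg0 h1
    obtain ⟨i, h2, -, -⟩ := hzp g hg0
    rw [h2] at h1
    obtain ⟨l, hl⟩ := hq3.link i
    obtain ⟨p, hp⟩ := af u hu
    by_contra hne
    exact (hq3.el hL hp hN0 hu hne).2 l ((hl _).2 h1)
  · intro u u' hu hu' hne a ha
    obtain ⟨p, hp⟩ := af u hu
    obtain ⟨p', hp'⟩ := af u' hu'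
    exact hq3.conj_lift hL hp hp' hN0 hu' hne a ha
  · intro g c c' h1 h2 h3 k1 k2 k3 h
    obtain ⟨w, hw⟩ := af g h1
    obtain ⟨u, hu⟩ := af c h2
    obtain ⟨v, hv⟩ := af c' h3
    exact hq3.triple_lift hg.inv hL hw hu hv hN0 h1 h2 h3 k1 k2 k3 h
  · intro hpr x r
    obtain ⟨p, rfl⟩ := hq.φ_surj x
    have hB : ∀ i, (F.mu i : ℝ) * F.tr i ≤ N := by
      intro i
      have h1 : F.tr i ≤ X.tau (F.gen i) := by
        refine (tau_holds Q V X hg.inv).2.2.2.2.2.1 (F.gen i) p _ (2 * 10 ^ 9 : ℕ) fun m => ?_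
        have h2 := F.lip i p (F.gen i ^ m • p)
        have h3 := Text.c_zpow F i m p
        rw [zpow_natCast] at h3
        rw [h3] at h2
        have h4 := neg_abs_le (F.c i p - (F.c i p + ((m : ℤ) : ℝ) * F.tr i))
        push_cast at h2 h4 ⊢
        linarith
      have h2 : (F.mu i : ℝ) ≤ N := by exact_mod_cast Nat.le_of_dvd hN0 (hmuN i)
      have h3 := (hmu i).1.2.1
      have h4 := F.tr_pos i
      have h5 : (0 : ℝ) ≤ F.mu i := Nat.cast_nonneg _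
      nlinarith
    refine ((hpr p ((N + 1000 * (2 * 10 ^ 9)) * (r + 1))).image π).subset fun g hg0 => ?_
    obtain ⟨a, h1, -, h3⟩ := hq3.lift_pt (Θ := N) (Nat.cast_nonneg N) p p g
      (fun l => hq3.ang_bdd N hB l _ _)
    refine ⟨a, ?_, h1⟩
    have h4 : (A.Z.d (φ p) (g • φ p) : ℝ) ≤ r := by exact_mod_cast hg0
    have h5 : (X.d p (a • p) : ℝ) ≤ ((N : ℝ) + 1000 * ((2 * 10 ^ 9 : ℕ) : ℝ)) * (r + 1) :=
      h3.trans (mul_le_mul_of_nonneg_left (by linarith) (by positivity))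
    show X.d p (a • p) ≤ _
    exact_mod_cast h5

end Pool.Agent.H291Z.BT
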