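import Pool.Agent.H291Z.BT.Step
import Pool.Agent.H291Z.BT.Base

set_option autoImplicit false

/-!
# Towers of small cancellation quotients of a free group
-/

namespace Pool.Agent.H291Z.BT

open Pool.Agent.H59Z.NA

/-- One stage of a tower. -/
structure Stg (α : Type) (N : ℕ) : Type 1 where
  Q : Type
  V : Type
  [gQ : Group Q]
  [act : MulAction Q V]
  X : GM V
  b : FreeGroup α →* Q
  pt : V
  good : Good Q V X 122 (10 ^ 9) (1 / (3 * 10 ^ 13)) N
  b_surj : Function.Surjective b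
  trans : ∀ x : V, ∃ g : Q, g • pt = x

attribute [instance] Stg.gQ Stg.act

variable {α : Type} {N : ℕ}

/-- `T` is obtained from `S` by one step with exponents `e` along `π`. -/
def Nx (S T : Stg α N) (e : S.Q → ℕ) (π : S.Q →* T.Q) : Prop :=
  ∃ φ : S.V → T.V, Step N e S.X T.X π φ ∧ (∀ w, T.b w = π (S.b w)) ∧ T.pt = φ S.pt

theorem exists_nx (hN : Odd N) (S : Stg α N) (e : S.Q → ℕ)
    (e1 : ∀ g s, e (s * g * s⁻¹) = e g) (e2 : ∀ g, 10 ^ 32 ≤ e g) (e3 : ∀ g, e g ∣ N)
    (e4 : ∀ g, e g⁻¹ = e g) : ∃ (T : Stg α N) (π : S.Q →* T.Q), Nx S T e π := by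
  obtain ⟨R, W, _, _, Z, π, φ, h⟩ := exists_step N hN S.Q S.V S.X S.good e e1 e2 e3 e4
  refine ⟨{ Q := R, V := W, X := Z, b := π.comp S.b, pt := φ S.pt, good := h.good,
            b_surj := h.surj.comp S.b_surj, trans := ?_ }, π, φ, h, fun _ => rfl, rfl⟩
  intro x
  obtain ⟨p, rfl⟩ := h.φ_surj x
  obtain ⟨g, rfl⟩ := S.trans p
  exact ⟨π g, (h.φ_smul g _).symm⟩

/-- The free group as a stage. -/
abbrev base (α : Type) [DecidableEq α] (N : ℕ) : Stg α N where
  Q := FreeGroup α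
  V := FreeGroup α
  X := Base.tree α
  b := MonoidHom.id _
  pt := 1
  good := base_good α N _ (by norm_num)
  b_surj := fun g => ⟨g, rfl⟩
  trans := fun x => ⟨x, mul_one x⟩

lemma prim_of [DecidableEq α] (hN : 0 < N) (a : α) : Prim (Base.tree α) N (FreeGroup.of a) := by
  have hne : (FreeGroup.of a : FreeGroup α) ≠ 1 := FreeGroup.of_ne_one a
  refine ⟨fun h => ?_, ?_, fun c hc => ?_⟩
  · have := Base.le_norm_pow _ hne N
    rw [h, FreeGroup.norm_one] at this
    omega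
  · have := (tau_holds _ _ (Base.tree α) Base.tree_inv).1 (FreeGroup.of a) 1 1
    simpa [Base.tree_d] using this
  · obtain ⟨g, hg⟩ := (base_good α N 1 le_rfl).cyc _ hne
    obtain ⟨k, hk⟩ := Subgroup.mem_zpowers_iff.1 (hg _ (Commute.refl _))
    let χ : FreeGroup α →* Multiplicative ℤ := FreeGroup.lift fun _ => Multiplicative.ofAdd 1
    have h1 : k * Multiplicative.toAdd (χ g) = 1 := by
      have := congrArg (fun x => Multiplicative.toAdd (χ x)) hk
      simpa [χ] using this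
    have h2 : g ∈ Subgroup.zpowers (FreeGroup.of a : FreeGroup α) := by
      rcases Int.eq_one_or_neg_one_of_mul_eq_one h1 with rfl | rfl
      · rw [zpow_one] at hk
        rw [hk]; exact Subgroup.mem_zpowers _
      · rw [zpow_neg_one] at hk
        rw [← hk, Subgroup.zpowers_inv]; exact Subgroup.mem_zpowers _
    exact (Subgroup.zpowers_le.2 h2) (hg c hc)

lemma exists_tower (P : Stg α N → Prop) (Rl : Stg α N → Stg α N → Prop) (S0 : Stg α N)
    (h0 : P S0) (hs : ∀ S, P S → ∃ T, P T ∧ Rl S T) :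
    ∃ S : ℕ → Stg α N, (∀ k, P (S k)) ∧ ∀ k, Rl (S k) (S (k + 1)) := by
  choose nx h1 h2 using hs
  let f : {S // P S} → {S // P S} := fun S => ⟨nx S.1 S.2, h1 S.1 S.2⟩
  refine ⟨fun k => (f^[k] ⟨S0, h0⟩).1, fun k => (f^[k] ⟨S0, h0⟩).2, fun k => ?_⟩
  simp only [Function.iterate_succ_apply']
  exact h2 _ _

section lim

variable {S : ℕ → Stg α N} (hS : ∀ k, ∃ e π, Nx (S k) (S (k + 1)) e π)
include hS

lemma mono {k l : ℕ} (hkl : k ≤ l) {w : FreeGroup α} (h : (S k).b w = 1) : (S l).b w = 1 := by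
  induction l, hkl using Nat.le_induction with
  | base => exact h
  | succ l _ ih =>
    obtain ⟨e, π, φ, -, h2, -⟩ := hS l
    rw [h2, ih, map_one]

/-- the kernel of the limit -/
def limK : Subgroup (FreeGroup α) where
  carrier := {w | ∃ k, (S k).b w = 1}
  one_mem' := ⟨0, map_one _⟩
  mul_mem' := by
    rintro g h ⟨k, hk⟩ ⟨l, hl⟩
    refine ⟨max k l, ?_⟩
    rw [map_mul, mono hS (le_max_left _ _) hk, mono hS (le_max_right _ _) hl, mul_one]
  inv_mem' := by
    rintro g ⟨k, hk⟩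
    exact ⟨k, by rw [map_inv, hk, inv_one]⟩

instance : (limK hS).Normal := by
  constructor
  rintro g ⟨k, hk⟩ h
  exact ⟨k, by rw [map_mul, map_mul, hk, mul_one, map_inv, mul_inv_cancel]⟩

lemma lim_one (w : FreeGroup α) :
    QuotientGroup.mk' (limK hS) w = 1 ↔ ∃ k, (S k).b w = 1 := QuotientGroup.eq_one_iff w

lemma lim_eq (v w : FreeGroup α) :
    QuotientGroup.mk' (limK hS) v = QuotientGroup.mk' (limK hS) w ↔
      ∃ k, ∀ l, k ≤ l → (S l).b v = (S l).b w := by
  rw [← inv_mul_eq_one, ← map_inv, ← map_mul, lim_one]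
  constructor
  · rintro ⟨k, hk⟩
    refine ⟨k, fun l hl => ?_⟩
    have := mono hS hl hk
    rwa [map_mul, map_inv, inv_mul_eq_one] at this
  · rintro ⟨k, hk⟩
    exact ⟨k, by rw [map_mul, map_inv, hk k le_rfl, inv_mul_cancel]⟩

lemma lim_pow (w : FreeGroup α) : ∃ k, (S k).b w ^ N = 1 := by
  have short : ∃ k, (S k).X.d (S k).pt ((S k).b w • (S k).pt) ≤ 1 := by
    by_contra hcon
    push Not at hcon
    have dec : ∀ k, (S k).X.d (S k).pt ((S k).b w • (S k).pt) + k ≤
        (S 0).X.d (S 0).pt ((S 0).b w • (S 0).pt) := by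
      intro k
      induction k with
      | zero => simp
      | succ k ih =>
        obtain ⟨e, π, φ, h1, h2, h3⟩ := hS k
        have h4 := h1.len (S k).pt ((S k).b w • (S k).pt)
        rw [h1.φ_smul, ← h2, ← h3] at h4
        have := hcon (k + 1)
        omega
    have := dec ((S 0).X.d (S 0).pt ((S 0).b w • (S 0).pt) + 1)
    omega
  obtain ⟨k, hk⟩ := short
  obtain ⟨e, π, φ, h1, h2, -⟩ := hS k
  refine ⟨k + 1, ?_⟩
  rw [h2]
  apply h1.kill
  have h := (tau_holds _ _ (S k).X (S k).good.inv).1 ((S k).b w) (S k).pt 1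
  rw [pow_one, Nat.cast_one, mul_one] at h
  refine h.trans ?_
  exact_mod_cast hk

end lim

lemma exists_desc {Q R M : Type} [Group Q] [Group R] [Group M] (π : Q →* R)
    (hπ : Function.Surjective π) (ψ : Q →* M) (h : ∀ k, π k = 1 → ψ k = 1) :
    ∃ ψ' : R →* M, ∀ g, ψ' (π g) = ψ g :=
  ⟨π.liftOfSurjective hπ ⟨ψ, fun k hk => h k hk⟩, fun g =>
    π.liftOfRightInverse_comp_apply _ _ _ g⟩

lemma Step.desc {Q V R W M : Type} [Group Q] [MulAction Q V] [Group R] [MulAction R W] [Group M]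
    {e : Q → ℕ} {X : GM V} {Z : GM W} {π : Q →* R} {φ : V → W} (h : Step N e X Z π φ)
    (ψ : Q →* M) (hψ : ∀ g, Prim X N g → ψ g ^ e g = 1) : ∃ ψ' : R →* M, ∀ g, ψ' (π g) = ψ g := by
  refine exists_desc π h.surj ψ fun k hk => ?_
  have : Subgroup.closure {x | ∃ g, Prim X N g ∧ x = g ^ e g} ≤ ψ.ker := by
    rw [Subgroup.closure_le]
    rintro _ ⟨g, hg, rfl⟩
    exact (MonoidHom.mem_ker).2 (by rw [map_pow, hψ g hg])
  exact this (h.ker k hk)

end Pool.Agent.H291Z.BT
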