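import Pool.Agent.H291Z.BT.Fin

set_option autoImplicit false

/-!
# An infinite group in which the elements with `g ^ n ≠ 1` have finite multiplicative multiplicity
-/

namespace Pool.Agent.H291Z.BT

open Pool.Agent.H59Z.NA

namespace XY

/-- the map onto the elementary abelian group of order nine -/
def ψ0 : FreeGroup Bool →* Multiplicative (ZMod 3 × ZMod 3) :=
  FreeGroup.lift fun x => Multiplicative.ofAdd (if x then (1, 0) else (0, 1))

lemma pow3 (x : Multiplicative (ZMod 3 × ZMod 3)) (k : ℕ) : x ^ (3 ^ (k + 1)) = 1 := by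
  have : x ^ 3 = 1 := by revert x; decide
  rw [pow_succ', pow_mul, this, one_pow]

/-- the invariant -/
def P (S : Stg Bool (3 ^ 71)) : Prop :=
  Proper S.Q S.X ∧ (∃ ψ : S.Q →* Multiplicative (ZMod 3 × ZMod 3), ∀ w, ψ (S.b w) = ψ0 w) ∧
    S.b (FreeGroup.of true) ^ 3 ^ 71 = 1 ∧ S.b (FreeGroup.of true) ^ 3 ^ 70 ≠ 1 ∧
    ∀ g : S.Q, Commute g (S.b (FreeGroup.of true)) →
      g ∈ Subgroup.zpowers (S.b (FreeGroup.of true))

lemma odd71 : Odd (3 ^ 71) := Odd.pow (by decide)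

lemma P_start : ∃ S, P S := by
  obtain ⟨T, π, φ, hs, hb, -⟩ := exists_nx odd71 (base Bool (3 ^ 71)) (fun _ => 3 ^ 71)
    (fun _ _ => rfl) (fun _ => by norm_num) (fun _ => dvd_rfl) (fun _ => rfl)
  have hb' : ∀ w, T.b w = π w := hb
  have pa : Prim (base Bool (3 ^ 71)).X (3 ^ 71) (FreeGroup.of true : FreeGroup Bool) :=
    prim_of odd71.pos true
  have oa := hs.new_ord _ pa
  obtain ⟨ψ, hψ⟩ := hs.desc ψ0 (fun g _ => pow3 _ 70)
  have a70 : π (FreeGroup.of true) ^ 3 ^ 70 ≠ 1 := by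
    rw [← zpow_natCast]
    intro h
    have h2 : 3 ^ 71 ∣ 3 ^ 70 := by exact_mod_cast (oa _).1 h
    exact absurd (Nat.le_of_dvd (by positivity) h2) (by norm_num)
  refine ⟨T, hs.proper (base_proper Bool), ⟨ψ, fun w => by rw [hb', hψ]⟩, ?_, ?_, ?_⟩
  · rw [hb', ← zpow_natCast]
    exact (oa _).2 dvd_rfl
  · rw [hb']; exact a70
  · intro g hg
    rw [hb'] at hg ⊢
    exact hs.new_cent _ pa _ (Subgroup.mem_zpowers _) (fun h => a70 (by rw [h, one_pow])) g hg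

lemma P_step (S : Stg Bool (3 ^ 71)) (h : P S) :
    ∃ T, P T ∧ ∃ π, Nx S T (fun _ => 3 ^ 70) π := by
  obtain ⟨h0, ⟨ψ, h1⟩, a1, a2, a3⟩ := h
  obtain ⟨T, π, hn⟩ := exists_nx odd71 S (fun _ => 3 ^ 70)
    (fun _ _ => rfl) (fun _ => by norm_num) (fun _ => by norm_num) (fun _ => rfl)
  refine ⟨T, ?_, π, hn⟩
  obtain ⟨φ, hs, hb, -⟩ := hn
  obtain ⟨ψ', hψ'⟩ := hs.desc ψ (fun g _ => pow3 _ 69)
  have an : S.b (FreeGroup.of true) ≠ 1 := fun h => a2 (by rw [h, one_pow])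
  refine ⟨hs.proper h0, ⟨ψ', fun w => by rw [hb, hψ', h1]⟩, ?_, ?_, ?_⟩
  · rw [hb, ← map_pow, a1, map_one]
  · rw [hb, ← map_pow]
    intro h
    exact a2 (hs.old_inj _ (by rw [← pow_mul, mul_comm, pow_mul, a1, one_pow]) h)
  · intro g hg
    rw [hb] at hg ⊢
    obtain ⟨g', rfl, h2⟩ := hs.conj_lift _ _ a1 a1 an g (by rw [hg.eq, mul_inv_cancel_right])
    obtain ⟨j, rfl⟩ := Subgroup.mem_zpowers_iff.1 (a3 g' (mul_inv_eq_iff_eq_mul.1 h2))
    rw [map_zpow]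
    exact Subgroup.zpow_mem_zpowers _ _

/-- decompositions into two big elements -/
def D {Q : Type} [Group Q] (N n : ℕ) (g : Q) : Set Q :=
  {c | c ^ N = 1 ∧ c ^ n ≠ 1 ∧ (c⁻¹ * g) ^ N = 1 ∧ (c⁻¹ * g) ^ n ≠ 1}

lemma D_step {Q V R W : Type} [Group Q] [MulAction Q V] [Group R] [MulAction R W] {N n : ℕ}
    {X : GM V} {Z : GM W} {π : Q →* R} {φ : V → W} (hs : Step N (fun _ => n) X Z π φ) {g : Q}
    (hg : g ^ N = 1) (g1 : g ≠ 1) : D N n (π g) ⊆ π '' D N n g := by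
  have old : ∀ r : R, r ^ N = 1 → r ^ n ≠ 1 → ∃ c : Q, π c = r ∧ c ^ N = 1 ∧ c ^ n ≠ 1 := by
    intro r h1 h2
    rcases hs.tors r h1 with ⟨c, rfl, hc⟩ | ⟨c, hc, h3⟩
    · exact ⟨c, rfl, hc, fun h => h2 (by rw [← map_pow, h, map_one])⟩
    · obtain ⟨j, rfl⟩ := Subgroup.mem_zpowers_iff.1 h3
      refine absurd ?_ h2
      rw [← zpow_natCast, ← zpow_mul, hs.new_ord c hc]
      exact Dvd.intro_left _ rfl
  rintro r ⟨h1, h2, h3, h4⟩
  obtain ⟨c, rfl, c1, c2⟩ := old r h1 h2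
  obtain ⟨c', e, c3, c4⟩ := old _ h3 h4
  obtain ⟨k, k', k1, k2, e2⟩ := hs.triple g c c' hg c1 c3 g1 (fun h => c2 (by rw [h, one_pow]))
    (fun h => c4 (by rw [h, one_pow])) (by rw [e, mul_inv_cancel_left])
  have e3 : (k * c * k⁻¹)⁻¹ * g = k' * c' * k'⁻¹ := by rw [e2, inv_mul_cancel_left]
  refine ⟨k * c * k⁻¹, ⟨?_, ?_, ?_, ?_⟩, by simp [k1]⟩
  · rw [conj_pow, c1]; group
  · rw [conj_pow, Ne, conj_eq_one_iff]; exact c2
  · rw [e3, conj_pow, c3]; group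
  · rw [e3, conj_pow, Ne, conj_eq_one_iff]; exact c4

end XY

open XY in
theorem exists_xy : ∃ (H : Type) (_ : Group H) (n : ℕ), Infinite H ∧ (∀ g : H, IsOfFinOrder g) ∧
    {g : H | g ^ n ≠ 1}.Infinite ∧
    ∀ g : H, g ≠ 1 → {c : H | c ^ n ≠ 1 ∧ (c⁻¹ * g) ^ n ≠ 1}.Finite := by
  obtain ⟨S0, h0⟩ := P_start
  obtain ⟨S, hP, hS'⟩ := exists_tower P (fun S T => ∃ π, Nx S T (fun _ => 3 ^ 70) π) S0 h0 P_step
  have hS : ∀ k, ∃ e π, Nx (S k) (S (k + 1)) e π := fun k => ⟨_, hS' k⟩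
  set μ := QuotientGroup.mk' (limK hS) with hμ
  have su : Function.Surjective μ := QuotientGroup.mk'_surjective _
  have hpow : ∀ w, ∃ k, ∀ l, k ≤ l → (S l).b w ^ 3 ^ 71 = 1 := by
    intro w
    obtain ⟨k, hk⟩ := lim_pow hS w
    refine ⟨k, fun l hl => ?_⟩
    rw [← map_pow] at hk ⊢
    exact mono hS hl hk
  have hexp : ∀ g : FreeGroup Bool ⧸ limK hS, g ^ 3 ^ 71 = 1 := by
    intro g
    obtain ⟨w, rfl⟩ := su g
    obtain ⟨k, hk⟩ := hpow w
    rw [← map_pow, lim_one]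
    exact ⟨k, by rw [map_pow, hk k le_rfl]⟩
  have hne : ∀ w (j : ℕ), μ w ^ j ≠ 1 → ∀ k, (S k).b w ^ j ≠ 1 := by
    intro w j h k hk
    apply h
    rw [← map_pow, lim_one]
    exact ⟨k, by rw [map_pow, hk]⟩
  have hcomm : ∀ v w, Commute (μ v) (μ w) → ∃ k, ∀ l, k ≤ l → Commute ((S l).b v) ((S l).b w) := by
    intro v w h
    have := h.eq
    rw [← map_mul, ← map_mul, lim_eq] at this
    obtain ⟨k, hk⟩ := this
    refine ⟨k, fun l hl => ?_⟩
    have := hk l hl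
    rwa [map_mul, map_mul] at this
  have ha : μ (FreeGroup.of true) ^ 3 ^ 70 ≠ 1 := by
    rw [← map_pow, Ne, lim_one]
    rintro ⟨k, hk⟩
    exact (hP k).2.2.2.1 (by rw [← map_pow, hk])
  have hinf : Infinite (FreeGroup Bool ⧸ limK hS) := by
    by_contra hfin
    rw [not_infinite_iff_finite] at hfin
    have : Nontrivial (FreeGroup Bool ⧸ limK hS) :=
      ⟨⟨μ (FreeGroup.of true), 1, fun h => ha (by rw [h, one_pow])⟩⟩
    have : Fact (Nat.Prime 3) := ⟨Nat.prime_three⟩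
    have hp : IsPGroup 3 (FreeGroup Bool ⧸ limK hS) := fun g => ⟨71, hexp g⟩
    have := hp.center_nontrivial
    obtain ⟨⟨z, hz⟩, z1⟩ := exists_ne (1 : Subgroup.center (FreeGroup Bool ⧸ limK hS))
    obtain ⟨w, rfl⟩ := su z
    have z2 : μ w ^ 1 ≠ 1 := fun h => z1 (Subtype.ext (by rw [pow_one] at h; exact h))
    obtain ⟨k1, h1⟩ := hcomm (FreeGroup.of true) w (Subgroup.mem_center_iff.1 hz _)
    obtain ⟨k2, h2⟩ := hcomm (FreeGroup.of false) w (Subgroup.mem_center_iff.1 hz _)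
    have h3 := hne w 1 z2 (max k1 k2)
    rw [pow_one] at h3
    obtain ⟨g, hg⟩ := (S (max k1 k2)).good.cyc _ h3
    obtain ⟨i, hi⟩ := Subgroup.mem_zpowers_iff.1 (hg _ (h1 _ (le_max_left _ _)))
    obtain ⟨j, hj⟩ := Subgroup.mem_zpowers_iff.1 (hg _ (h2 _ (le_max_right _ _)))
    obtain ⟨ψ, hψ⟩ := (hP (max k1 k2)).2.1
    have e1 := congrArg (fun x => Multiplicative.toAdd (ψ x)) hi
    have e2 := congrArg (fun x => Multiplicative.toAdd (ψ x)) hj
    simp only [map_zpow, hψ, ψ0, FreeGroup.lift_apply_of, toAdd_zpow, toAdd_ofAdd, if_true,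
      Bool.false_eq_true, if_false, zsmul_eq_mul] at e1 e2
    have f1 := congrArg Prod.fst e1
    have f2 := congrArg Prod.snd e1
    have f3 := congrArg Prod.snd e2
    simp only [Prod.fst_mul, Prod.snd_mul, Prod.fst_intCast, Prod.snd_intCast] at f1 f2 f3
    have f4 : (Multiplicative.toAdd (ψ g)).2 = 0 := by
      rcases mul_eq_zero.1 f2 with h | h
      · rw [h, zero_mul] at f1
        exact absurd f1 zero_ne_one
      · exact h
    rw [f4, mul_zero] at f3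
    exact zero_ne_one f3
  have hfo : ∀ g : FreeGroup Bool ⧸ limK hS, IsOfFinOrder g := fun g =>
    isOfFinOrder_iff_pow_eq_one.2 ⟨_, odd71.pos, hexp g⟩
  refine ⟨_, inferInstance, 3 ^ 70, hinf, hfo, ?_, ?_⟩
  · intro hfin
    have hc : {g | Commute g (μ (FreeGroup.of true))}.Finite := by
      refine (finite_zpowers.2 (hfo (μ (FreeGroup.of true)))).subset fun g hg => ?_
      obtain ⟨w, rfl⟩ := su g
      obtain ⟨k, hk⟩ := hcomm _ _ hg
      obtain ⟨j, hj⟩ := Subgroup.mem_zpowers_iff.1 ((hP k).2.2.2.2 _ (hk k le_rfl))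
      refine Subgroup.mem_zpowers_iff.2 ⟨j, ?_⟩
      rw [← map_zpow, ← inv_mul_eq_one, ← map_inv, ← map_mul, lim_one]
      exact ⟨k, by rw [map_mul, map_inv, map_zpow, hj, inv_mul_cancel]⟩
    apply Set.infinite_univ (α := FreeGroup Bool ⧸ limK hS)
    refine Set.Finite.of_finite_fibers (fun t => t * μ (FreeGroup.of true) * t⁻¹)
      (hfin.subset ?_) ?_
    · rintro _ ⟨t, -, rfl⟩
      show _ ≠ _
      rw [conj_pow, Ne, conj_eq_one_iff]
      exact ha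
    · rintro _ ⟨t, -, rfl⟩
      refine (hc.image fun a => t * a).subset fun s hs => ⟨t⁻¹ * s, ?_, by simp⟩
      have e : s * μ (FreeGroup.of true) * s⁻¹ = t * μ (FreeGroup.of true) * t⁻¹ := hs.2
      show t⁻¹ * s * μ (FreeGroup.of true) = μ (FreeGroup.of true) * (t⁻¹ * s)
      calc t⁻¹ * s * μ (FreeGroup.of true)
          = t⁻¹ * (s * μ (FreeGroup.of true) * s⁻¹) * s := by group
        _ = _ := by rw [e]; group
  · intro g g1
    obtain ⟨w, rfl⟩ := su g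
    obtain ⟨k, hk⟩ := hpow w
    have w1 : ∀ l, (S l).b w ≠ 1 := fun l => by
      have := hne w 1 (by rwa [pow_one]) l
      rwa [pow_one] at this
    have hD : (D (3 ^ 71) (3 ^ 70) ((S k).b w)).Finite := by
      refine (decomp_finite (S k) odd71.pos (hP k).1 (hk k le_rfl) (w1 k)).subset ?_
      rintro c ⟨h1, h2, h3, h4⟩
      exact ⟨h1, fun h => h2 (by rw [h, one_pow]), h3, fun h => h4 (by rw [h, one_pow])⟩
    choose s hs using (S k).b_surj
    have key : ∀ l, k ≤ l → D (3 ^ 71) (3 ^ 70) ((S l).b w) ⊆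
        (S l).b '' (s '' D (3 ^ 71) (3 ^ 70) ((S k).b w)) := by
      intro l hl
      induction l, hl using Nat.le_induction with
      | base => exact fun c hc => ⟨s c, ⟨c, hc, rfl⟩, hs c⟩
      | succ l hl ih =>
        obtain ⟨π, φ, hst, hb, -⟩ := hS' l
        intro c hc
        rw [hb] at hc
        obtain ⟨c0, h1, rfl⟩ := D_step hst (hk l hl) (w1 l) hc
        obtain ⟨t, ht, rfl⟩ := ih h1
        exact ⟨t, ht, hb t⟩
    refine ((hD.image s).image μ).subset ?_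
    rintro c ⟨h1, h2⟩
    obtain ⟨v, rfl⟩ := su c
    rw [← map_inv, ← map_mul] at h2
    obtain ⟨k1, e1⟩ := hpow v
    obtain ⟨k2, e2⟩ := hpow (v⁻¹ * w)
    obtain ⟨t, ht, e⟩ := key (max k (max k1 k2)) (le_max_left _ _) (a := (S _).b v)
      ⟨e1 _ (by omega), hne _ _ h1 _, by rw [← map_inv, ← map_mul]; exact e2 _ (by omega),
        by rw [← map_inv, ← map_mul]; exact hne _ _ h2 _⟩
    refine ⟨t, ht, ?_⟩
    rw [← inv_mul_eq_one, ← map_inv, ← map_mul, lim_one]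
    exact ⟨_, by rw [map_mul, map_inv, e, inv_mul_cancel]⟩

end Pool.Agent.H291Z.BT
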